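import Pool.Agent.Helper58K9.ET.Asm
import Pool.Agent.Helper58K9.AR.AllA

/-!
# Étale neighbourhoods: the ACC
-/

set_option autoImplicit false

namespace Pool.Agent.Helper58K9.ET

open Pool.Agent.H436R3.Fol Pool.Agent.H436R3.KT Pool.Agent.W497.Mld Pool.Agent.Helper58K9.AR

/-- The minimal log discrepancies `m ≥ 0` of the pairs `(X ∋ x, B)` which are étale locally at the
closed point `x` a general arrangement variety `Y` of klt type, of dimension `d`, with an attractive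
fixed point and an invariant boundary `B'` with coefficients in `Γ`. -/
def etMlds (d : ℕ) (Γ : Set ℝ) : Set ℝ :=
  {m : ℝ | 0 ≤ m ∧ ∃ (K : Type) (_ : Field K) (_ : Algebra ℂ K) (X : AffVar K) (B : EffDiv X)
    (E : ∀ x : Pt X, LocEq B x) (x : Pt X),
    (∃ (c n : ℕ) (_ : 0 < c) (_ : c + n = d) (M : Type) (_ : Field M) (_ : Algebra ℂ M)
      (g : ArrGerm c n M) (_ : KltType g) (B' : EffDiv g.X) (_ : CoeffIn B' Γ) (u : Fin n → ℝ)
      (η : Fin g.F.q → ℝ) (E' : ∀ y : Pt g.X, LocEq B' y) (_ : ∀ y, IsEq g (E' y) u η),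
      Common E x E' g.P) ∧ Pool.Agent.W497.Mld.IsMld (E x) m}

theorem etMlds_sub (hU : S_UP) (hW : S_DOWN) (hD : S_DENS) (hE : S_EXTD) (hA : S_APPR)
    (hC : S_CHG) (d : ℕ) (Γ : Set ℝ) :
    etMlds d Γ ⊆ {m | ∃ c n, 0 < c ∧ c + n = d ∧ m ∈ arrMlds c n Γ} := by
  rintro m ⟨hm0, K, _, _, X, B, E, x, ⟨c, n, hc, hcn, M, _, _, g, hk, B', hB', u, η, E', hE',
    hcom⟩, hm⟩
  refine ⟨c, n, hc, hcn, hm0, M, inferInstance, inferInstance, g, B', E' g.P, u, η, hE' g.P, hk,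
    hB', ?_⟩
  obtain ⟨L, _, _, _, _, _, _, S, h, h', T, T', hT, hT', ⟨y, rfl, hyP⟩, hag⟩ := hcom
  have key : {a | ∃ v, IsOverGerm (h.im y) v ∧ IsLogDisc (E (h.im y)) v a} =
      {a | ∃ v, IsOverGerm (h'.im y) v ∧ IsLogDisc (E' (h'.im y)) v a} := by
    ext a
    exact log_eq hU hW hD hE hA hC E E' h h' T T' hT hT' y (fun w hw => hag y w hw) a
  rw [← hyP]
  unfold Pool.Agent.W497.Mld.IsMld at hm ⊢
  rwa [key] at hm

end Pool.Agent.Helper58K9.ET
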