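import Pool.Agent.Helper58K9.ET.Stm
import Pool.Agent.H436R3.Fol.Val

/-!
[APPR] matrix approximation.
-/

set_option autoImplicit false

namespace Pool.Agent.Helper58K9.ET

open Pool.Agent.H436R3.Fol Pool.Agent.H436R3.KT Pool.Agent.W497.Mld Matrix

namespace ApprL

variable {L : Type} [Field L] [Algebra ℂ L]

/-- `f` is zero or of order at least `m` -/
def Ge (w : DVal L) (m : ℤ) (f : L) : Prop := f = 0 ∨ m ≤ w.ord f

theorem ge_zero (w : DVal L) (m : ℤ) : Ge w m 0 := Or.inl rfl

theorem ge_mono {w : DVal L} {m m' : ℤ} {f : L} (h : Ge w m f) (hm : m' ≤ m) : Ge w m' f := by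
  rcases h with h | h
  · exact Or.inl h
  · exact Or.inr (hm.trans h)

theorem ge_add {w : DVal L} {m : ℤ} {f g : L} (hf : Ge w m f) (hg : Ge w m g) :
    Ge w m (f + g) := by
  by_cases h1 : f = 0
  · rwa [h1, zero_add]
  by_cases h2 : g = 0
  · rwa [h2, add_zero]
  by_cases h3 : f + g = 0
  · left; exact h3
  right
  have h4 := w.map_add f g h1 h2 h3
  have := hf.resolve_left h1
  have := hg.resolve_left h2
  omega

theorem ge_mul {w : DVal L} {m n : ℤ} {f g : L} (hf : Ge w m f) (hg : Ge w n g) :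
    Ge w (m + n) (f * g) := by
  by_cases h1 : f = 0
  · left; rw [h1, zero_mul]
  by_cases h2 : g = 0
  · left; rw [h2, mul_zero]
  right
  rw [w.map_mul f g h1 h2]
  have := hf.resolve_left h1
  have := hg.resolve_left h2
  omega

theorem ge_neg {w : DVal L} {m : ℤ} {f : L} (hf : Ge w m f) : Ge w m (-f) := by
  by_cases h1 : f = 0
  · left; rw [h1, neg_zero]
  · right; rw [w.ord_neg h1]; exact hf.resolve_left h1

theorem ge_sum {w : DVal L} {m : ℤ} {ι : Type} (s : Finset ι) (f : ι → L)
    (h : ∀ i ∈ s, Ge w m (f i)) : Ge w m (∑ i ∈ s, f i) := by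
  classical
  induction s using Finset.induction_on with
  | empty => exact ge_zero w m
  | insert a s ha ih =>
    rw [Finset.sum_insert ha]
    exact ge_add (h a (Finset.mem_insert_self _ _))
      (ih fun i hi => h i (Finset.mem_insert_of_mem hi))

theorem reg_iff {w : DVal L} {f : L} : w.Reg f ↔ Ge w 0 f := Iff.rfl

theorem pos_iff {w : DVal L} {f : L} : w.Pos f ↔ Ge w 1 f := by
  constructor
  · rintro (h | h)
    · exact Or.inl h
    · exact Or.inr h
  · rintro (h | h)
    · exact Or.inl h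
    · exact Or.inr h

/-- `1 + u` with `u` in the maximal ideal -/
theorem one_add {w : DVal L} {f : L} (h : w.Pos (f - 1)) : f ≠ 0 ∧ w.ord f = 0 := by
  have hf : f ≠ 0 := by
    rintro rfl
    rw [zero_sub] at h
    rcases h with h | h
    · exact one_ne_zero (neg_eq_zero.1 h)
    · rw [w.ord_neg one_ne_zero, w.ord_one] at h
      exact lt_irrefl _ h
  refine ⟨hf, ?_⟩
  rcases h with h | h
  · rw [sub_eq_zero.1 h, w.ord_one]
  · by_cases h0 : f - 1 = 0
    · rw [sub_eq_zero.1 h0, w.ord_one]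
    have h1 := w.map_add (f - 1) 1 h0 one_ne_zero (by rwa [sub_add_cancel])
    rw [sub_add_cancel, w.ord_one] at h1
    have h2 : -(f - 1) ≠ 0 := neg_ne_zero.2 h0
    have h3 := w.map_add f (-(f - 1)) hf h2 (by ring_nf; exact one_ne_zero)
    have h4 : f + -(f - 1) = 1 := by ring
    rw [h4, w.ord_one, w.ord_neg h0] at h3
    omega

variable {K : Type} [Field K] [Algebra ℂ K] [Algebra K L]

theorem step {w : DVal L}
    (hd : ∀ f : L, f ≠ 0 → ∃ g : K, g ≠ 0 ∧ w.Pos (f / algebraMap K L g - 1)) {m : ℤ} {f : L}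
    (hf : Ge w m f) : ∃ g : K, Ge w (m + 1) (f - algebraMap K L g) := by
  by_cases h0 : f = 0
  · exact ⟨0, by rw [h0, map_zero, sub_zero]; exact ge_zero _ _⟩
  obtain ⟨g, hg, hp⟩ := hd f h0
  have hg' : algebraMap K L g ≠ 0 := (map_ne_zero_iff _ (algebraMap K L).injective).2 hg
  obtain ⟨h1, h2⟩ := one_add hp
  have h3 : w.ord f = w.ord (algebraMap K L g) := by
    rw [w.ord_div h0 hg'] at h2
    omega
  have h4 : Ge w m (algebraMap K L g) := Or.inr (by rw [← h3]; exact hf.resolve_left h0)
  refine ⟨g, ?_⟩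
  have h5 : f - algebraMap K L g = algebraMap K L g * (f / algebraMap K L g - 1) := by
    field_simp
  rw [h5]
  exact ge_mul h4 (pos_iff.1 hp)

theorem iter {w : DVal L}
    (hd : ∀ f : L, f ≠ 0 → ∃ g : K, g ≠ 0 ∧ w.Pos (f / algebraMap K L g - 1)) {m : ℤ} {f : L}
    (hf : Ge w m f) (n : ℕ) : ∃ g : K, Ge w (m + n) (f - algebraMap K L g) := by
  induction n with
  | zero => exact ⟨0, by rw [map_zero, sub_zero]; simpa using hf⟩
  | succ n ih =>
    obtain ⟨g, hg⟩ := ih
    obtain ⟨g', hg'⟩ := step hd hg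
    refine ⟨g + g', ?_⟩
    rw [map_add]
    have h1 : f - (algebraMap K L g + algebraMap K L g') = f - algebraMap K L g -
      algebraMap K L g' := by ring
    rw [h1]
    push_cast
    rw [← add_assoc]
    exact hg'

theorem approx {w : DVal L}
    (hd : ∀ f : L, f ≠ 0 → ∃ g : K, g ≠ 0 ∧ w.Pos (f / algebraMap K L g - 1)) (N : ℤ) (f : L) :
    ∃ g : K, Ge w N (f - algebraMap K L g) := by
  obtain ⟨g, hg⟩ := iter hd (m := w.ord f) (f := f) (Or.inr le_rfl) (N - w.ord f).toNat
  exact ⟨g, ge_mono hg (by omega)⟩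

omit [Algebra K L] in
theorem der_sum {ι : Type} (s : Finset ι) (D : ι → Derivation ℂ L L) (f : L) :
    (∑ j ∈ s, D j) f = ∑ j ∈ s, D j f := by
  classical
  induction s using Finset.induction_on with
  | empty => simp
  | insert a s ha ih => rw [Finset.sum_insert ha, Finset.sum_insert ha, Derivation.add_apply, ih]

/-- the maximal ideal of the valuation ring -/
def mx (w : DVal L) : Ideal w.O where
  carrier := {f | w.Pos (f : L)}
  add_mem' := fun {a b} ha hb => pos_iff.2 (ge_add (pos_iff.1 ha) (pos_iff.1 hb))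
  zero_mem' := Or.inl rfl
  smul_mem' := fun c x hx => w.pos_mul_left c.2 hx

theorem det_one_add {d : ℕ} (w : DVal L) (F : Matrix (Fin d) (Fin d) L)
    (hF : ∀ i j, w.Pos (F i j)) : w.Pos ((1 - F).det - 1) := by
  have hR : ∀ i j, (1 - F) i j ∈ w.O := by
    intro i j
    rw [w.mem_O, Matrix.sub_apply, sub_eq_add_neg]
    refine w.reg_add ?_ (w.reg_neg (ge_mono (pos_iff.1 (hF i j)) (by norm_num)))
    rw [Matrix.one_apply]
    split_ifs
    · exact w.reg_one
    · exact w.reg_zero
  let M : Matrix (Fin d) (Fin d) w.O := Matrix.of fun i j => ⟨(1 - F) i j, hR i j⟩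
  have h1 : (1 - F).det = ((M.det : w.O) : L) := by
    rw [← Subring.coe_subtype, RingHom.map_det]
    rfl
  have h2 : (Ideal.Quotient.mk (mx w)) M.det = 1 := by
    rw [RingHom.map_det]
    have : (Ideal.Quotient.mk (mx w)).mapMatrix M = 1 := by
      ext i j
      rw [RingHom.mapMatrix_apply, Matrix.map_apply, Matrix.one_apply]
      by_cases hij : i = j
      · rw [if_pos hij, ← map_one (Ideal.Quotient.mk (mx w)), Ideal.Quotient.eq]
        change w.Pos ((1 - F) i j - 1)
        rw [Matrix.sub_apply, Matrix.one_apply, if_pos hij]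
        have : (1 : L) - F i j - 1 = -F i j := by ring
        rw [this]
        exact pos_iff.2 (ge_neg (pos_iff.1 (hF i j)))
      · rw [if_neg hij, Ideal.Quotient.eq_zero_iff_mem]
        change w.Pos ((1 - F) i j)
        rw [Matrix.sub_apply, Matrix.one_apply, if_neg hij, zero_sub]
        exact pos_iff.2 (ge_neg (pos_iff.1 (hF i j)))
    rw [this, Matrix.det_one]
  rw [← map_one (Ideal.Quotient.mk (mx w)), Ideal.Quotient.eq] at h2
  rw [h1]
  exact h2

end ApprL

open ApprL

theorem appr : S_APPR := by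
  intro K L _ _ _ _ _ _ X T hT w v hwv hd A' hdet hpres
  -- the inverse matrix
  set B := A'⁻¹ with hB
  have hBA : B * A' = 1 := Matrix.nonsing_inv_mul A' (isUnit_iff_ne_zero.2 hdet)
  have hAB : A' * B = 1 := Matrix.mul_nonsing_inv A' (isUnit_iff_ne_zero.2 hdet)
  obtain ⟨M, hM⟩ : ∃ M : ℤ, ∀ i j, Ge w M (B i j) := by
    obtain ⟨M, hM⟩ := (Set.finite_range fun p : Fin X.d × Fin X.d => w.ord (B p.1 p.2)).bddBelow
    exact ⟨M, fun i j => Or.inr (hM ⟨(i, j), rfl⟩)⟩
  have hTf : ∀ f : L, w.Reg f → ∀ j, Ge w M (T.D j f) := by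
    intro f hf j
    have h1 : T.D j f = ∑ i, B j i * (∑ k, A' i k * T.D k f) := by
      have h2 : (B *ᵥ (A' *ᵥ fun k => T.D k f)) j = T.D j f := by
        rw [Matrix.mulVec_mulVec, hBA, Matrix.one_mulVec]
      rw [← h2]
      rfl
    rw [h1]
    refine ge_sum _ _ fun i _ => ?_
    have h3 : Ge w 0 (∑ k, A' i k * T.D k f) := by
      have h4 := hpres i f hf
      rw [der_sum] at h4
      exact reg_iff.1 h4
    have := ge_mul (hM j i) h3
    rwa [add_zero] at this
  choose A hA using fun i j => approx (K := K) hd (1 - M) (A' i j)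
  let AK : Matrix (Fin X.d) (Fin X.d) K := Matrix.of A
  let E : Matrix (Fin X.d) (Fin X.d) L := A' - (algebraMap K L).mapMatrix AK
  have hE : ∀ i j, Ge w (1 - M) (E i j) := hA
  have hF : ∀ i j, w.Pos ((E * B) i j) := by
    intro i j
    rw [Matrix.mul_apply, pos_iff]
    refine ge_sum _ _ fun k _ => ?_
    have := ge_mul (hE i k) (hM k j)
    rwa [sub_add_cancel] at this
  obtain ⟨hn1, hn2⟩ := one_add (det_one_add w (E * B) hF)
  have hAL : (algebraMap K L).mapMatrix AK = (1 - E * B) * A' := by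
    rw [sub_mul, one_mul, Matrix.mul_assoc, hBA, Matrix.mul_one]
    simp [E]
  have hdetA : algebraMap K L AK.det = (1 - E * B).det * A'.det := by
    rw [RingHom.map_det, hAL, Matrix.det_mul]
  have hne : AK.det ≠ 0 := by
    intro h0
    rw [h0, map_zero] at hdetA
    exact mul_ne_zero hn1 hdet hdetA.symm
  refine ⟨AK, hne, ?_, ?_⟩
  · intro i f hf
    have hf' : w.Reg (algebraMap K L f) := by
      rcases hf with hf | hf
      · left; rw [hf, map_zero]
      · by_cases h0 : f = 0
        · left; rw [h0, map_zero]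
        · right; rw [hwv f h0]; exact hf
    have h1 : algebraMap K L ((∑ j, AK i j • X.T.D j) f) =
        (∑ j, A' i j • T.D j) (algebraMap K L f) -
          ∑ j, E i j * T.D j (algebraMap K L f) := by
      rw [der_sum, der_sum, map_sum, ← Finset.sum_sub_distrib]
      refine Finset.sum_congr rfl fun j _ => ?_
      rw [Derivation.smul_apply, Derivation.smul_apply, smul_eq_mul, smul_eq_mul, map_mul,
        ← hT.ext j f]
      have : E i j = A' i j - algebraMap K L (AK i j) := rfl
      rw [this]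
      ring
    have h2 : w.Reg (algebraMap K L ((∑ j, AK i j • X.T.D j) f)) := by
      rw [h1, sub_eq_add_neg]
      refine w.reg_add (hpres i _ hf') (w.reg_neg ?_)
      refine ge_sum _ _ fun j _ => ?_
      have := ge_mul (hE i j) (hTf _ hf' j)
      exact ge_mono this (by omega)
    by_cases h0 : (∑ j, AK i j • X.T.D j) f = 0
    · left; exact h0
    · right
      rw [← hwv _ h0]
      exact h2.resolve_left ((map_ne_zero_iff _ (algebraMap K L).injective).2 h0)
  · rw [← hwv _ hne, hdetA, w.map_mul _ _ hn1 hdet, hn2, zero_add]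

end Pool.Agent.Helper58K9.ET
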