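import Pool.Agent.Helper58K9.ET.Stm
import Pool.Agent.Helper58K9.AR.AllL

/-!
# Étale neighbourhoods: the main theorem
-/

set_option autoImplicit false

namespace Pool.Agent.Helper58K9.ET

open Pool.Agent.H436R3.Fol Pool.Agent.H436R3.KT Pool.Agent.W497.Mld Pool.Agent.Helper58K9.AR
open Polynomial (aeval)

variable {K L M : Type} [Field K] [Algebra ℂ K] [Field L] [Algebra ℂ L] [Field M] [Algebra ℂ M]

theorem dsum {ι : Type} (s : Finset ι) (D : ι → Derivation ℂ K K) (f : K) :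
    (∑ i ∈ s, D i) f = ∑ i ∈ s, D i f := by
  classical
  induction s using Finset.induction_on with
  | empty => simp
  | insert a s ha ih => rw [Finset.sum_insert ha, Finset.sum_insert ha, Derivation.add_apply, ih]

section one

variable [Algebra K L] [IsScalarTower ℂ K L]

theorem reg_of_over {S : Subalgebra ℂ L} {y : S →ₐ[ℂ] ℂ} {w : DVal L} (hw : OverPt S y w) :
    ∀ f : S, w.Reg (f : L) := by
  obtain ⟨⟨S', -, hS, hl⟩, -⟩ := hw
  exact fun f => hl.1 f (hS f.2)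

/-- the canonical orders agree -/
theorem can (hD : S_DENS) (hE : S_EXTD) (hA : S_APPR) {X : AffVar K} {S : Subalgebra ℂ L}
    (h : Etale X S) (y : S →ₐ[ℂ] ℂ) (w : DVal L) (v : DVal K) (hw : OverPt S y w)
    (hwv : ∀ f : K, f ≠ 0 → w.ord (algebraMap K L f) = v.ord f) (T : Foliation L X.d)
    (hT : Ext X T) (n : ℤ) : IsCanOrd X.T v n ↔ IsCanOrd T w n := by
  have hset : {m : ℤ | ∃ A : Matrix (Fin X.d) (Fin X.d) K, A.det ≠ 0 ∧
      (∀ i, Preserves v (∑ j, A i j • X.T.D j)) ∧ v.ord A.det = m} =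
      {m : ℤ | ∃ A : Matrix (Fin X.d) (Fin X.d) L, A.det ≠ 0 ∧
      (∀ i, Preserves w (∑ j, A i j • T.D j)) ∧ w.ord A.det = m} := by
    ext m
    constructor
    · rintro ⟨A, hA0, hAp, hm⟩
      have hdet : (A.map (algebraMap K L)).det = algebraMap K L A.det := by
        rw [← RingHom.mapMatrix_apply, ← RingHom.map_det]
      refine ⟨A.map (algebraMap K L), ?_, fun i => ?_, ?_⟩
      · rw [hdet]
        exact (map_ne_zero _).2 hA0
      · refine hE h y w v hw hwv _ (hAp i) _ fun f => ?_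
        rw [dsum, dsum, map_sum]
        refine Finset.sum_congr rfl fun j _ => ?_
        rw [Derivation.smul_apply, Derivation.smul_apply, smul_eq_mul, smul_eq_mul, map_mul, hT.ext,
          Matrix.map_apply]
      · rw [hdet, hwv _ hA0, hm]
    · rintro ⟨A', hA0, hAp, hm⟩
      obtain ⟨A, h1, h2, h3⟩ := hA T hT w v hwv
        (hD h y w hw.2 (reg_of_over hw)) A' hA0 hAp
      exact ⟨A, h1, h2, h3.trans hm⟩
  unfold IsCanOrd
  rw [hset]

/-- the log discrepancies agree -/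
theorem disc (hU : S_UP) (hW : S_DOWN) (hD : S_DENS) (hE : S_EXTD) (hA : S_APPR) {X : AffVar K}
    {S : Subalgebra ℂ L} (h : Etale X S) (y : S →ₐ[ℂ] ℂ) (T : Foliation L X.d) (hT : Ext X T)
    {B : EffDiv X} (e : LocEq B (h.im y)) (a : ℝ) :
    (∃ v, IsOverGerm (h.im y) v ∧ IsLogDisc e v a) ↔
      ∃ w, OverPt S y w ∧ ∃ n : ℤ, IsCanOrd T w n ∧ a = 1 + (n : ℝ) - ordE e w := by
  constructor
  · rintro ⟨v, hv, n, hn, ha⟩
    obtain ⟨w, hw, hwv⟩ := hU h y v hv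
    refine ⟨w, hw, n, (can hD hE hA h y w v hw hwv T hT n).1 hn, ?_⟩
    rw [ha, ordE]
    congr 1
    exact Finset.sum_congr rfl fun k _ => by rw [hwv _ (e.ne k)]
  · rintro ⟨w, hw, n, hn, ha⟩
    obtain ⟨v, hv, hwv⟩ := hW h y w hw
    refine ⟨v, hv, n, (can hD hE hA h y w v hw hwv T hT n).2 hn, ?_⟩
    rw [ha, ordE]
    congr 1
    exact Finset.sum_congr rfl fun k _ => by rw [hwv _ (e.ne k)]

end one

/-- `mld` depends only on the set of the log discrepancies -/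
theorem mld_congr {X : AffVar K} {B : EffDiv X} {x : Pt X} {e : LocEq B x} {Y : AffVar M}
    {B' : EffDiv Y} {x' : Pt Y} {e' : LocEq B' x'}
    (h : ∀ a : ℝ, (∃ v, IsOverGerm x v ∧ IsLogDisc e v a) ↔
      ∃ v, IsOverGerm x' v ∧ IsLogDisc e' v a) : mld e = mld e' := by
  classical
  have h1 : (∃ v a, IsOverGerm x v ∧ IsLogDisc e v a ∧ a < 0) ↔
      ∃ v a, IsOverGerm x' v ∧ IsLogDisc e' v a ∧ a < 0 := by
    constructor
    · rintro ⟨v, a, hv, ha, h0⟩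
      obtain ⟨v', hv', ha'⟩ := (h a).1 ⟨v, hv, ha⟩
      exact ⟨v', a, hv', ha', h0⟩
    · rintro ⟨v, a, hv, ha, h0⟩
      obtain ⟨v', hv', ha'⟩ := (h a).2 ⟨v, hv, ha⟩
      exact ⟨v', a, hv', ha', h0⟩
  have h2 : {a : EReal | ∃ v r, IsOverGerm x v ∧ IsLogDisc e v r ∧ a = (r : EReal)} =
      {a : EReal | ∃ v r, IsOverGerm x' v ∧ IsLogDisc e' v r ∧ a = (r : EReal)} := by
    ext a
    constructor
    · rintro ⟨v, r, hv, hr, ha⟩
      obtain ⟨v', hv', ha'⟩ := (h r).1 ⟨v, hv, hr⟩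
      exact ⟨v', r, hv', ha', ha⟩
    · rintro ⟨v, r, hv, hr, ha⟩
      obtain ⟨v', hv', ha'⟩ := (h r).2 ⟨v, hv, hr⟩
      exact ⟨v', r, hv', ha', ha⟩
  unfold mld
  rw [h2]
  by_cases h3 : ∃ v a, IsOverGerm x v ∧ IsLogDisc e v a ∧ a < 0
  · rw [if_pos h3, if_pos (h1.1 h3)]
  · rw [if_neg h3, if_neg (fun h4 => h3 (h1.2 h4))]

/-- the log discrepancies agree at the points of a common étale neighbourhood -/
theorem log_eq (hU : S_UP) (hW : S_DOWN) (hD : S_DENS) (hE : S_EXTD) (hA : S_APPR)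
    (hC : S_CHG) [Algebra K L] [IsScalarTower ℂ K L] [Algebra M L] [IsScalarTower ℂ M L]
    {X : AffVar K} {B : EffDiv X} (E : ∀ x : Pt X, LocEq B x) {Y : AffVar M} {B' : EffDiv Y}
    (E' : ∀ x : Pt Y, LocEq B' x) {S : Subalgebra ℂ L} (h : Etale X S) (h' : Etale Y S)
    (T : Foliation L X.d) (T' : Foliation L Y.d) (hT : Ext X T) (hT' : Ext Y T')
    (y : S →ₐ[ℂ] ℂ) (hag : ∀ w, OverPt S y w → ∀ n n' : ℤ, IsCanOrd T w n → IsCanOrd T' w n' →
      (n : ℝ) - ordE (E (h.im y)) w = (n' : ℝ) - ordE (E' (h'.im y)) w) (a : ℝ) :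
    (∃ v, IsOverGerm (h.im y) v ∧ IsLogDisc (E (h.im y)) v a) ↔
      ∃ v, IsOverGerm (h'.im y) v ∧ IsLogDisc (E' (h'.im y)) v a := by
  rw [disc hU hW hD hE hA h y T hT (E (h.im y)) a, disc hU hW hD hE hA h' y T' hT' (E' (h'.im y)) a]
  constructor
  · rintro ⟨w, hw, n, hn, ha⟩
    obtain ⟨n', hn'⟩ := hC T T' hT.top hT'.top w n hn
    refine ⟨w, hw, n', hn', ?_⟩
    have := hag w hw n n' hn hn'
    rw [ha]
    linarith
  · rintro ⟨w, hw, n', hn', ha⟩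
    obtain ⟨n, hn⟩ := hC T' T hT'.top hT.top w n' hn'
    refine ⟨w, hw, n, hn, ?_⟩
    have := hag w hw n n' hn hn'
    rw [ha]
    linarith

/-- the minimal log discrepancies agree at the points of a common étale neighbourhood -/
theorem mld_eq (hU : S_UP) (hW : S_DOWN) (hD : S_DENS) (hE : S_EXTD) (hA : S_APPR)
    (hC : S_CHG) [Algebra K L] [IsScalarTower ℂ K L] [Algebra M L] [IsScalarTower ℂ M L]
    {X : AffVar K} {B : EffDiv X} (E : ∀ x : Pt X, LocEq B x) {Y : AffVar M} {B' : EffDiv Y}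
    (E' : ∀ x : Pt Y, LocEq B' x) {S : Subalgebra ℂ L} (h : Etale X S) (h' : Etale Y S)
    (T : Foliation L X.d) (T' : Foliation L Y.d) (hT : Ext X T) (hT' : Ext Y T')
    (y : S →ₐ[ℂ] ℂ) (hag : ∀ w, OverPt S y w → ∀ n n' : ℤ, IsCanOrd T w n → IsCanOrd T' w n' →
      (n : ℝ) - ordE (E (h.im y)) w = (n' : ℝ) - ordE (E' (h'.im y)) w) :
    mld (E (h.im y)) = mld (E' (h'.im y)) :=
  mld_congr fun a => log_eq hU hW hD hE hA hC E E' h h' T T' hT hT' y hag a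

/-- lower semicontinuity of `mld` at `P` implies lower semicontinuity at `x`, if the pairs are étale
locally isomorphic at these points -/
theorem lsc_of_common (hU : S_UP) (hW : S_DOWN) (hD : S_DENS) (hE : S_EXTD) (hA : S_APPR)
    (hC : S_CHG) (hO : S_OPEN) {X : AffVar K} {B : EffDiv X} {E : ∀ x : Pt X, LocEq B x}
    {Y : AffVar M} {B' : EffDiv Y} {E' : ∀ x : Pt Y, LocEq B' x} {x : Pt X} {P : Pt Y}
    (hc : Common E x E' P) (hP : ∃ q : Y.R, P q ≠ 0 ∧ ∀ y, y q ≠ 0 → mld (E' P) ≤ mld (E' y)) :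
    ∃ f : X.R, x f ≠ 0 ∧ ∀ x' : Pt X, x' f ≠ 0 → mld (E x) ≤ mld (E x') := by
  obtain ⟨L, _, _, _, _, _, _, S, h, h', T, T', hT, hT', ⟨y, rfl, rfl⟩, hag⟩ := hc
  obtain ⟨q, hq, hlsc⟩ := hP
  obtain ⟨f, hf, hO'⟩ := hO h y (h'.inc q) hq
  refine ⟨f, hf, fun x' hx' => ?_⟩
  obtain ⟨y', rfl, hy'⟩ := hO' x' hx'
  rw [mld_eq hU hW hD hE hA hC E E' h h' T T' hT hT' y (fun w hw => hag y w hw),
    mld_eq hU hW hD hE hA hC E E' h h' T T' hT hT' y' (fun w hw => hag y' w hw)]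
  exact hlsc _ hy'

/-- the main theorem -/
theorem arr_lsc (hU : S_UP) (hW : S_DOWN) (hD : S_DENS) (hE : S_EXTD) (hA : S_APPR)
    (hC : S_CHG) (hO : S_OPEN) {X : AffVar K} {B : EffDiv X} {E : ∀ x : Pt X, LocEq B x}
    {x : Pt X} (hx : IsArr E x) :
    ∃ f : X.R, x f ≠ 0 ∧ ∀ x' : Pt X, x' f ≠ 0 → mld (E x) ≤ mld (E x') := by
  obtain ⟨c, n, hc, M, _, _, g, hk, B', u, η, E', hE', hcom⟩ := hx
  refine lsc_of_common hU hW hD hE hA hC hO hcom ⟨1, ?_, fun y _ => ?_⟩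
  · rw [map_one]
    exact one_ne_zero
  · exact lsc' hc hk (hE' g.P) (hE' y)

end Pool.Agent.Helper58K9.ET
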