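import Pool.Agent.Helper58K9.ET.Stm
import Pool.Agent.H436R3.Fol.Val

/-!
# Étale neighbourhoods: leaf CHG
-/

set_option autoImplicit false

namespace Pool.Agent.Helper58K9.ET

open Pool.Agent.H436R3.Fol Pool.Agent.H436R3.KT Pool.Agent.W497.Mld

theorem chg_rows {L : Type} [Field L] [Algebra ℂ L] {d : ℕ} (D D' : Fin d → Derivation ℂ L L)
    (M : Matrix (Fin d) (Fin d) L) (hM : ∀ i, D i = ∑ j, M i j • D' j)
    (A : Matrix (Fin d) (Fin d) L) (i : Fin d) :
    ∑ j, (A * M) i j • D' j = ∑ j, A i j • D j := by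
  calc ∑ j, (A * M) i j • D' j = ∑ j, ∑ k, (A i k * M k j) • D' j := by
        refine Finset.sum_congr rfl fun j _ => ?_
        rw [Matrix.mul_apply, Finset.sum_smul]
    _ = ∑ k, ∑ j, (A i k * M k j) • D' j := Finset.sum_comm
    _ = ∑ k, A i k • D k := by
        refine Finset.sum_congr rfl fun k _ => ?_
        rw [hM k, Finset.smul_sum]
        exact Finset.sum_congr rfl fun j _ => by rw [mul_smul]

theorem chg : S_CHG := by
  intro L _ _ d d' T T' hT hT' w n hn
  have hsT : ⊤ ≤ Submodule.span L (Set.range T.D) := by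
    have : Submodule.span L (Set.range T.D) = ⊤ := hT
    rw [this]
  have hsT' : ⊤ ≤ Submodule.span L (Set.range T'.D) := by
    have : Submodule.span L (Set.range T'.D) = ⊤ := hT'
    rw [this]
  let b := Module.Basis.mk T.indep hsT
  let b' := Module.Basis.mk T'.indep hsT'
  have hd : d = d' := by
    have h1 := Fintype.card_congr (b.indexEquiv b')
    simpa using h1
  subst hd
  have hM : ∀ i, T.D i = ∑ j, (b'.toMatrix b).transpose i j • T'.D j := by
    intro i
    have h1 := b'.sum_toMatrix_smul_self (b : Fin d → Derivation ℂ L L) i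
    have h2 : b i = T.D i := Module.Basis.mk_apply _ _ _
    rw [h2] at h1
    rw [← h1]
    refine Finset.sum_congr rfl fun j _ => ?_
    rw [Matrix.transpose_apply, Module.Basis.mk_apply]
  have hN : ∀ i, T'.D i = ∑ j, (b.toMatrix b').transpose i j • T.D j := by
    intro i
    have h1 := b.sum_toMatrix_smul_self (b' : Fin d → Derivation ℂ L L) i
    have h2 : b' i = T'.D i := Module.Basis.mk_apply _ _ _
    rw [h2] at h1
    rw [← h1]
    refine Finset.sum_congr rfl fun j _ => ?_
    rw [Matrix.transpose_apply, Module.Basis.mk_apply]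
  set M := (b'.toMatrix b).transpose with hMd
  set N := (b.toMatrix b').transpose with hNd
  have hMN : M * N = 1 := by
    rw [hMd, hNd, ← Matrix.transpose_mul, Module.Basis.toMatrix_mul_toMatrix_flip,
      Matrix.transpose_one]
  have hdet : M.det * N.det = 1 := by rw [← Matrix.det_mul, hMN, Matrix.det_one]
  have hM0 : M.det ≠ 0 := left_ne_zero_of_mul_eq_one hdet
  have hN0 : N.det ≠ 0 := right_ne_zero_of_mul_eq_one hdet
  have hord : w.ord M.det + w.ord N.det = 0 := by
    rw [← w.map_mul _ _ hM0 hN0, hdet, w.ord_one]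
  obtain ⟨⟨A, hA0, hAp, hAn⟩, hmin⟩ := hn
  refine ⟨n + w.ord M.det, ⟨A * M, ?_, fun i => ?_, ?_⟩, ?_⟩
  · rw [Matrix.det_mul]; exact mul_ne_zero hA0 hM0
  · rw [chg_rows T.D T'.D M hM]
    exact hAp i
  · rw [Matrix.det_mul, w.map_mul _ _ hA0 hM0, hAn]
  · rintro m ⟨A', hA0', hAp', rfl⟩
    have h1 := hmin ⟨A' * N, by rw [Matrix.det_mul]; exact mul_ne_zero hA0' hN0, fun i => by
      rw [chg_rows T'.D T.D N hN]; exact hAp' i, rfl⟩
    rw [Matrix.det_mul, w.map_mul _ _ hA0' hN0] at h1
    omega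

end Pool.Agent.Helper58K9.ET
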