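import Mathlib
import Pool.Agent.Helper58K9.AR.Defs
import Pool.Agent.Helper58K9.AR.Mld

/-!
# Étale neighbourhoods: definitions
-/

set_option autoImplicit false

namespace Pool.Agent.Helper58K9.ET

open Pool.Agent.H436R3.Fol Pool.Agent.H436R3.KT Pool.Agent.W497.Mld Pool.Agent.Helper58K9.AR
open Polynomial (aeval)

variable {K L M : Type} [Field K] [Algebra ℂ K] [Field L] [Algebra ℂ L] [Field M] [Algebra ℂ M]

/-- `U = Spec S` is a standard étale variety over `X`: the function field of `U` is `K (t)`, the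
minimal polynomial `p` of `t` over `K` has coefficients in `X.R`, `S` is obtained from `X.R [t]` by
inverting an element `s (t)`, and `p' (t)` is a unit of `S`. -/
structure Etale [Algebra K L] (X : AffVar K) (S : Subalgebra ℂ L) where
  t : L
  int : IsIntegral K t
  gen : ∀ f : L, ∃ a : Polynomial K, aeval t a = f
  mem : ∀ i, (minpoly K t).coeff i ∈ X.R
  s : Polynomial K
  smem : ∀ i, s.coeff i ∈ X.R
  sne : aeval t s ≠ 0
  hS : S = Algebra.adjoin ℂ ((algebraMap K L '' (X.R : Set K)) ∪ {t, (aeval t s)⁻¹})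
  unit : (aeval t (Polynomial.derivative (minpoly K t)))⁻¹ ∈ S

theorem Etale.map_mem [Algebra K L] {X : AffVar K} {S : Subalgebra ℂ L} (h : Etale X S)
    {f : K} (hf : f ∈ X.R) : algebraMap K L f ∈ S := by
  rw [h.hS]
  exact Algebra.subset_adjoin (Or.inl ⟨f, hf, rfl⟩)

/-- The homomorphism of the coordinate rings. -/
noncomputable def Etale.inc [Algebra K L] [IsScalarTower ℂ K L] {X : AffVar K}
    {S : Subalgebra ℂ L} (h : Etale X S) : X.R →ₐ[ℂ] S :=
  ((IsScalarTower.toAlgHom ℂ K L).comp X.R.val).codRestrict S fun f => h.map_mem f.2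

/-- The image in `X` of the closed point `y` of `U`. -/
noncomputable def Etale.im [Algebra K L] [IsScalarTower ℂ K L] {X : AffVar K}
    {S : Subalgebra ℂ L} (h : Etale X S) (y : S →ₐ[ℂ] ℂ) : Pt X := y.comp h.inc

/-- `w` is the valuation of a prime divisor over `U = Spec S` with the centre `y`. -/
def OverPt (S : Subalgebra ℂ L) (y : S →ₐ[ℂ] ℂ) (w : DVal L) : Prop :=
  (∃ S' : Subalgebra ℂ L, S'.FG ∧ S ≤ S' ∧ IsLocalRing' S' w) ∧ ∀ f : S, w.Pos (f : L) ↔ y f = 0

/-- `T` is a basis of the rational vector fields of `U` which extends the basis `X.T` of the rational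
vector fields of `X`: the canonical divisor of `U` given by `T` is the divisor of the pull-back of
the form whose divisor is the canonical divisor of `X`. -/
structure Ext [Algebra K L] (X : AffVar K) (T : Foliation L X.d) : Prop where
  top : T.space = ⊤
  ext : ∀ i f, T.D i (algebraMap K L f) = algebraMap K L (X.T.D i f)

/-- The order at `w` of the pull-back of `K_X + B`, with the local equation `e`. -/
noncomputable def ordE [Algebra K L] {X : AffVar K} {B : EffDiv X} {x : Pt X} (e : LocEq B x)
    (w : DVal L) : ℝ := ∑ k, e.ρ k * (w.ord (algebraMap K L (e.g k)) : ℝ)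

/-- The pairs `(X, B)` and `(Y, B')` are étale locally isomorphic at the closed points `x` and `P`:
there is a variety `U = Spec S` with étale morphisms `U → X` and `U → Y` and a closed point `y` over
`x` and `P`, such that the pull-backs of `K_X + B` and `K_Y + B'` to `U` agree: they have the same
difference with the canonical divisor. -/
def Common {X : AffVar K} {B : EffDiv X} (E : ∀ x : Pt X, LocEq B x) (x : Pt X)
    {Y : AffVar M} {B' : EffDiv Y} (E' : ∀ x : Pt Y, LocEq B' x) (P : Pt Y) : Prop :=
  ∃ (L : Type) (_ : Field L) (_ : Algebra ℂ L) (_ : Algebra K L) (_ : IsScalarTower ℂ K L)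
    (_ : Algebra M L) (_ : IsScalarTower ℂ M L) (S : Subalgebra ℂ L) (h : Etale X S)
    (h' : Etale Y S) (T : Foliation L X.d) (T' : Foliation L Y.d),
    Ext X T ∧ Ext Y T' ∧ (∃ y : S →ₐ[ℂ] ℂ, h.im y = x ∧ h'.im y = P) ∧
    ∀ y w, OverPt S y w → ∀ n n' : ℤ, IsCanOrd T w n → IsCanOrd T' w n' →
      (n : ℝ) - ordE (E (h.im y)) w = (n' : ℝ) - ordE (E' (h'.im y)) w

/-- The pair `(X, B)` is, étale locally at the closed point `x`, a general arrangement variety of klt
type with an attractive fixed point and an invariant boundary. -/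
def IsArr {X : AffVar K} {B : EffDiv X} (E : ∀ x : Pt X, LocEq B x) (x : Pt X) : Prop :=
  ∃ (c n : ℕ) (_ : 0 < c) (M : Type) (_ : Field M) (_ : Algebra ℂ M) (g : ArrGerm c n M)
    (_ : KltType g) (B' : EffDiv g.X) (u : Fin n → ℝ) (η : Fin g.F.q → ℝ)
    (E' : ∀ y : Pt g.X, LocEq B' y) (_ : ∀ y, IsEq g (E' y) u η), Common E x E' g.P

end Pool.Agent.Helper58K9.ET
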