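import Pool.Agent.Helper58K9.ET.Stm
import Pool.Agent.H436R3.Fol.Val
import Pool.Agent.H436R3.Fol.LogDer

/-!
# Étale neighbourhoods: leaves DENS and FRAC
-/

set_option autoImplicit false
set_option linter.unusedVariables false
set_option linter.unusedSectionVars false

namespace Pool.Agent.Helper58K9.ET

open Pool.Agent.H436R3.Fol Pool.Agent.H436R3.KT Pool.Agent.W497.Mld
open Polynomial

namespace DensL

variable {K L : Type} [Field K] [Algebra ℂ K] [Field L] [Algebra ℂ L] [Algebra K L]
  [IsScalarTower ℂ K L]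

theorem pos_reg {w : DVal L} {f : L} (h : w.Pos f) : w.Reg f := h.imp id le_of_lt

/-- the valuation ring in `K` -/
def OK (K : Type) [Field K] [Algebra K L] (w : DVal L) : Subring K := w.O.comap (algebraMap K L)

variable (w : DVal L)

theorem mem_OK {f : K} : f ∈ OK K w ↔ w.Reg (algebraMap K L f) := Iff.rfl

/-- evaluation at `t` -/
noncomputable def ps (t : L) : (OK K w)[X] →+* L :=
  Polynomial.eval₂RingHom ((algebraMap K L).comp (OK K w).subtype) t

theorem ps_X (t : L) : ps (K := K) w t X = t := by simp [ps]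

theorem ps_C (t : L) (a : OK K w) : ps (K := K) w t (C a) = algebraMap K L a := by simp [ps]

theorem ps_eq (t : L) (A : (OK K w)[X]) : ps w t A = aeval t (A.map (OK K w).subtype) := by
  rw [ps, coe_eval₂RingHom, aeval_def, eval₂_map]

theorem ps_reg {t : L} (ht : w.Reg t) (A : (OK K w)[X]) : w.Reg (ps w t A) := by
  have h : ps w t A ∈ w.O := by
    rw [ps, coe_eval₂RingHom, eval₂_eq_sum, Polynomial.sum]
    refine Subring.sum_mem _ fun i _ => Subring.mul_mem _ ?_ (Subring.pow_mem _ ht _)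
    exact (A.coeff i).2
  exact h

theorem one_pos_mul {u u' : L} (hu : w.Pos (u - 1)) (hu' : w.Pos (u' - 1)) :
    w.Pos (u * u' - 1) := by
  have h : u * u' - 1 = u' * (u - 1) + (u' - 1) := by ring
  rw [h]
  refine w.pos_add (w.pos_mul_left ?_ hu) hu'
  have : u' = (u' - 1) + 1 := by ring
  rw [this]
  exact w.reg_add (pos_reg hu') w.reg_one

theorem not_pos_of_zero {u : L} (h0 : u ≠ 0) (h : w.ord u = 0) : ¬ w.Pos u := by
  rintro (h1 | h1)
  · exact h0 h1
  · omega

theorem one_pos_ne {u : L} (hu : w.Pos (u - 1)) : u ≠ 0 ∧ w.ord u = 0 := by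
  have hne : u ≠ 0 := by
    rintro rfl
    rw [zero_sub] at hu
    refine not_pos_of_zero w (neg_ne_zero.2 one_ne_zero) ?_ hu
    rw [w.ord_neg one_ne_zero, w.ord_one]
  refine ⟨hne, ?_⟩
  have hreg : w.Reg u := by
    have : u = (u - 1) + 1 := by ring
    rw [this]
    exact w.reg_add (pos_reg hu) w.reg_one
  have h0 := hreg.resolve_left hne
  by_contra h1
  have h2 : w.Pos u := Or.inr (by omega)
  have h3 : w.Pos (1 : L) := by
    have : (1 : L) = u + -(u - 1) := by ring
    rw [this]
    refine w.pos_add h2 ?_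
    rcases hu with h | h
    · left; rw [h, neg_zero]
    · by_cases h4 : u - 1 = 0
      · left; rw [h4, neg_zero]
      · right; rwa [w.ord_neg h4]
  exact not_pos_of_zero w one_ne_zero w.ord_one h3

theorem pos_neg {u : L} (hu : w.Pos u) : w.Pos (-u) := by
  rcases hu with h | h
  · left; rw [h, neg_zero]
  · by_cases h4 : u = 0
    · left; rw [h4, neg_zero]
    · right; rwa [w.ord_neg h4]

theorem one_pos_inv {u : L} (hu : w.Pos (u - 1)) : w.Pos (u⁻¹ - 1) := by
  obtain ⟨h0, h1⟩ := one_pos_ne w hu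
  have h : u⁻¹ - 1 = u⁻¹ * (-(u - 1)) := by
    field_simp
    ring
  rw [h]
  refine w.pos_mul_left (Or.inr ?_) (pos_neg w hu)
  rw [w.ord_inv h0, h1]
  simp

theorem one_pos_pow {u : L} (hu : w.Pos (u - 1)) (k : ℕ) : w.Pos (u ^ k - 1) := by
  induction k with
  | zero => left; simp
  | succ k ih => rw [pow_succ]; exact one_pos_mul w ih hu

/-- the data of the proof -/
structure Dat (w : DVal L) (t : L) where
  c : OK K w
  P : (OK K w)[X]
  G : (OK K w)[X]
  hP : P = (X - C c) * G + C (P.eval c)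
  h0 : ps w t P = 0
  treg : w.Reg t
  tc : w.Pos (t - algebraMap K L c)
  Gne : ps w t G ≠ 0
  Gord : w.ord (ps w t G) = 0
  π : K
  πne : π ≠ 0
  πpos : 0 < w.ord (algebraMap K L π)
  πmin : ∀ f : K, w.Pos (algebraMap K L f) → w.Reg (algebraMap K L (f / π))
  gen : ∀ f : L, ∃ a : K[X], aeval t a = f

variable {w} {t : L} (D : Dat (K := K) w t)

include D

theorem πmem : D.π ∈ OK K w := Or.inr D.πpos.le

/-- the uniformizer in the ring -/
def Dat.p (D : Dat (K := K) w t) : OK K w := ⟨D.π, πmem D⟩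

theorem psP : (t - algebraMap K L D.c) * ps w t D.G = -algebraMap K L ((D.P.eval D.c : OK K w) : K) := by
  have h := congrArg (ps w t) D.hP
  rw [D.h0, map_add, map_mul, map_sub, ps_X, ps_C, ps_C] at h
  exact eq_neg_of_add_eq_zero_left h.symm

theorem pc_pos : w.Pos (algebraMap K L ((D.P.eval D.c : OK K w) : K)) := by
  have h := psP D
  have h2 : algebraMap K L ((D.P.eval D.c : OK K w) : K) = -(ps w t D.G * (t - algebraMap K L D.c)) := by
    rw [mul_comm, h, neg_neg]
  rw [h2]
  exact pos_neg w (w.pos_mul_left (ps_reg w D.treg _) D.tc)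

theorem div_eq (A : (OK K w)[X]) : A = (X - C D.c) * (A /ₘ (X - C D.c)) + C (A.eval D.c) := by
  have h := modByMonic_add_div A (X - C D.c)
  rw [modByMonic_X_sub_C_eq_C_eval] at h
  rw [add_comm]
  exact h.symm

theorem ps_div (A : (OK K w)[X]) : ps w t A =
    (t - algebraMap K L D.c) * ps w t (A /ₘ (X - C D.c)) + algebraMap K L ((A.eval D.c : OK K w) : K) := by
  have h := congrArg (ps w t) (div_eq D A)
  rwa [map_add, map_mul, map_sub, ps_X, ps_C, ps_C] at h

theorem exists_of_pos {f : OK K w} (hf : w.Pos (algebraMap K L f)) :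
    ∃ g : OK K w, f = D.p * g := by
  refine ⟨⟨(f : K) / D.π, D.πmin _ hf⟩, ?_⟩
  apply Subtype.ext
  change (f : K) = D.π * ((f : K) / D.π)
  field_simp [D.πne]

theorem step (A : (OK K w)[X]) (hA : w.Pos (ps w t A)) : ∃ A' : (OK K w)[X],
    ps w t D.G * ps w t A = algebraMap K L D.π * ps w t A' := by
  have h1 := ps_div D A
  have h2 : w.Pos (algebraMap K L ((A.eval D.c : OK K w) : K)) := by
    have : algebraMap K L ((A.eval D.c : OK K w) : K) =
        ps w t A + -(ps w t (A /ₘ (X - C D.c)) * (t - algebraMap K L D.c)) := by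
      rw [h1]; ring
    rw [this]
    exact w.pos_add hA (pos_neg w (w.pos_mul_left (ps_reg w D.treg _) D.tc))
  obtain ⟨α, hα⟩ := exists_of_pos D h2
  obtain ⟨β, hβ⟩ := exists_of_pos D (pc_pos D)
  refine ⟨D.G * C α - C β * (A /ₘ (X - C D.c)), ?_⟩
  have h3 := psP D
  have hα' : algebraMap K L ((A.eval D.c : OK K w) : K) = algebraMap K L D.π * algebraMap K L α := by
    rw [hα, ← map_mul]; rfl
  have hβ' : algebraMap K L ((D.P.eval D.c : OK K w) : K) = algebraMap K L D.π * algebraMap K L β := by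
    rw [hβ, ← map_mul]; rfl
  rw [map_sub, map_mul, map_mul, ps_C, ps_C, h1]
  calc ps w t D.G * ((t - algebraMap K L D.c) * ps w t (A /ₘ (X - C D.c)) +
        algebraMap K L ((A.eval D.c : OK K w) : K)) = ((t - algebraMap K L D.c) * ps w t D.G) *
          ps w t (A /ₘ (X - C D.c)) + ps w t D.G * algebraMap K L ((A.eval D.c : OK K w) : K) := by ring
    _ = _ := by rw [h3, hα', hβ']; ring

theorem π'ne : algebraMap K L D.π ≠ 0 := (_root_.map_ne_zero _).2 D.πne

theorem red (n : ℕ) : ∀ A : (OK K w)[X], ps w t A ≠ 0 → w.ord (ps w t A) ≤ n →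
    ∃ (k : ℕ) (A' : (OK K w)[X]), ps w t A * ps w t D.G ^ k = algebraMap K L D.π ^ k * ps w t A' ∧
      ps w t A' ≠ 0 ∧ w.ord (ps w t A') = 0 := by
  induction n with
  | zero =>
    intro A hA h
    have h2 := (ps_reg w D.treg A).resolve_left hA
    exact ⟨0, A, by simp, hA, le_antisymm h h2⟩
  | succ n ih =>
    intro A hA h
    have h2 := (ps_reg w D.treg A).resolve_left hA
    by_cases h3 : w.ord (ps w t A) = 0
    · exact ⟨0, A, by simp, hA, h3⟩
    · obtain ⟨A', hA'⟩ := step D A (Or.inr (by omega))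
      have hne : ps w t A' ≠ 0 := by
        intro h4
        rw [h4, mul_zero] at hA'
        exact mul_ne_zero D.Gne hA hA'
      have ho := congrArg w.ord hA'
      rw [w.map_mul _ _ D.Gne hA, w.map_mul _ _ (π'ne D) hne, D.Gord] at ho
      have hp := D.πpos
      obtain ⟨k, A'', h5, h6, h7⟩ := ih A' hne (by push_cast at h; omega)
      refine ⟨k + 1, A'', ?_, h6, h7⟩
      calc ps w t A * ps w t D.G ^ (k + 1) = (ps w t D.G * ps w t A) * ps w t D.G ^ k := by ring
        _ = algebraMap K L D.π * (ps w t A' * ps w t D.G ^ k) := by rw [hA']; ring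
        _ = _ := by rw [h5]; ring

/-- a unit `A (t)` is congruent to `A (c)` -/
theorem unit_cong {A : (OK K w)[X]} (h0 : ps w t A ≠ 0) (h1 : w.ord (ps w t A) = 0) :
    ((A.eval D.c : OK K w) : K) ≠ 0 ∧ w.Pos (ps w t A / algebraMap K L ((A.eval D.c : OK K w) : K) - 1) := by
  have h2 := ps_div D A
  have hp : w.Pos ((t - algebraMap K L D.c) * ps w t (A /ₘ (X - C D.c))) := by
    rw [mul_comm]
    exact w.pos_mul_left (ps_reg w D.treg _) D.tc
  have h3 : ((A.eval D.c : OK K w) : K) ≠ 0 := by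
    intro h4
    rw [h4, map_zero, add_zero] at h2
    rw [← h2] at hp
    exact not_pos_of_zero w h0 h1 hp
  have h3' : algebraMap K L ((A.eval D.c : OK K w) : K) ≠ 0 := (_root_.map_ne_zero _).2 h3
  have h5 : w.ord (algebraMap K L ((A.eval D.c : OK K w) : K)) = 0 := by
    have h6 : w.Reg (algebraMap K L ((A.eval D.c : OK K w) : K)) := (A.eval D.c).2
    have h7 := h6.resolve_left h3'
    by_contra h8
    have h9 : w.Pos (algebraMap K L ((A.eval D.c : OK K w) : K)) := Or.inr (by omega)
    have := w.pos_add hp h9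
    rw [← h2] at this
    exact not_pos_of_zero w h0 h1 this
  refine ⟨h3, ?_⟩
  have h6 : ps w t A / algebraMap K L ((A.eval D.c : OK K w) : K) - 1 = (algebraMap K L ((A.eval D.c : OK K w) : K))⁻¹ *
      ((t - algebraMap K L D.c) * ps w t (A /ₘ (X - C D.c))) := by
    rw [h2]
    field_simp
    ring
  rw [h6]
  refine w.pos_mul_left (Or.inr ?_) hp
  rw [w.ord_inv h3', h5]
  simp

/-- clearing denominators -/
theorem clear (a : K[X]) : ∃ (N : ℕ) (A : (OK K w)[X]),
    algebraMap K L D.π ^ N * aeval t a = ps w t A := by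
  induction a using Polynomial.induction_on' with
  | add p q hp hq =>
    obtain ⟨N, A, hA⟩ := hp
    obtain ⟨N', A', hA'⟩ := hq
    refine ⟨N + N', C (D.p ^ N') * A + C (D.p ^ N) * A', ?_⟩
    rw [map_add, map_add, map_mul, map_mul, ps_C, ps_C, ← hA, ← hA']
    have h1 : ∀ k : ℕ, algebraMap K L ((D.p ^ k : OK K w) : K) = algebraMap K L D.π ^ k := by
      intro k
      rw [← map_pow]; rfl
    rw [h1, h1]
    ring
  | monomial n b =>
    by_cases hb : b = 0
    · exact ⟨0, 0, by simp [hb]⟩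
    have hb' : algebraMap K L b ≠ 0 := (_root_.map_ne_zero _).2 hb
    let N := (-(w.ord (algebraMap K L b))).toNat
    have hN : -(w.ord (algebraMap K L b)) ≤ N := Int.self_le_toNat _
    have hmem : D.π ^ N * b ∈ OK K w := by
      right
      rw [map_mul, w.map_mul _ _ (by rw [map_pow]; exact pow_ne_zero _ (π'ne D)) hb', map_pow,
        w.ord_pow (π'ne D)]
      have h1 : (N : ℤ) ≤ N * w.ord (algebraMap K L D.π) := by
        have := D.πpos
        nlinarith
      linarith
    refine ⟨N, C ⟨_, hmem⟩ * X ^ n, ?_⟩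
    rw [map_mul, map_pow, ps_X, ps_C, aeval_monomial]
    change _ = algebraMap K L (D.π ^ N * b) * t ^ n
    rw [map_mul, map_pow]
    ring

/-- the form of all elements -/
theorem form {f : L} (hf : f ≠ 0) : ∃ (N k : ℕ) (A : (OK K w)[X]), ps w t A ≠ 0 ∧
    w.ord (ps w t A) = 0 ∧
    f * algebraMap K L D.π ^ N * ps w t D.G ^ k = algebraMap K L D.π ^ k * ps w t A := by
  obtain ⟨a, ha⟩ := D.gen f
  obtain ⟨N, A, hA⟩ := clear D a
  rw [ha] at hA
  have hne : ps w t A ≠ 0 := by
    rw [← hA]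
    exact mul_ne_zero (pow_ne_zero _ (π'ne D)) hf
  obtain ⟨k, A', h1, h2, h3⟩ := red D (w.ord (ps w t A)).toNat A hne (Int.self_le_toNat _)
  refine ⟨N, k, A', h2, h3, ?_⟩
  rw [← h1, ← hA]
  ring

theorem dens' {f : L} (hf : f ≠ 0) : ∃ g : K, g ≠ 0 ∧ w.Pos (f / algebraMap K L g - 1) := by
  obtain ⟨N, k, A, h0, h1, h2⟩ := form D hf
  obtain ⟨a0, a1⟩ := unit_cong D h0 h1
  obtain ⟨g0, g1⟩ := unit_cong D D.Gne D.Gord
  have hπ := π'ne D
  have ha : algebraMap K L ((A.eval D.c : OK K w) : K) ≠ 0 := (_root_.map_ne_zero _).2 a0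
  have hg : algebraMap K L ((D.G.eval D.c : OK K w) : K) ≠ 0 := (_root_.map_ne_zero _).2 g0
  refine ⟨D.π ^ k * ((A.eval D.c : OK K w) : K) / (D.π ^ N * ((D.G.eval D.c : OK K w) : K) ^ k), ?_, ?_⟩
  · exact div_ne_zero (mul_ne_zero (pow_ne_zero _ D.πne) a0)
      (mul_ne_zero (pow_ne_zero _ D.πne) (pow_ne_zero _ g0))
  · have h3 : f / algebraMap K L (D.π ^ k * ((A.eval D.c : OK K w) : K) /
        (D.π ^ N * ((D.G.eval D.c : OK K w) : K) ^ k)) =
        (ps w t A / algebraMap K L ((A.eval D.c : OK K w) : K)) *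
          ((ps w t D.G / algebraMap K L ((D.G.eval D.c : OK K w) : K))⁻¹) ^ k := by
      have hG := D.Gne
      have h4 : f = algebraMap K L D.π ^ k * ps w t A /
          (algebraMap K L D.π ^ N * ps w t D.G ^ k) := by
        rw [eq_div_iff (mul_ne_zero (pow_ne_zero _ hπ) (pow_ne_zero _ hG)), ← h2]
        ring
      rw [h4]
      simp only [map_div₀, map_mul, map_pow, inv_div, div_pow]
      field_simp
    rw [h3]
    exact one_pos_mul w a1 (one_pos_pow w (one_pos_inv w g1) k)

theorem frac' {f : L} (hf : w.Reg f) : ∃ A B : K[X], (∀ i, w.Reg (algebraMap K L (A.coeff i))) ∧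
    (∀ i, w.Reg (algebraMap K L (B.coeff i))) ∧ aeval t B ≠ 0 ∧ w.ord (aeval t B) = 0 ∧
    f * aeval t B = aeval t A := by
  by_cases h0 : f = 0
  · refine ⟨0, 1, fun i => by rw [coeff_zero, map_zero]; exact w.reg_zero, fun i => ?_, ?_, ?_, ?_⟩
    · rw [coeff_one]
      split_ifs
      · rw [map_one]; exact w.reg_one
      · rw [map_zero]; exact w.reg_zero
    · simp
    · rw [map_one, w.ord_one]
    · simp [h0]
  · obtain ⟨N, k, A, h1, h2, h3⟩ := form D h0
    have hπ := π'ne D
    have hG := D.Gne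
    have hNk : N ≤ k := by
      have ho := congrArg w.ord h3
      rw [w.map_mul _ _ (mul_ne_zero h0 (pow_ne_zero _ hπ)) (pow_ne_zero _ hG),
        w.map_mul _ _ h0 (pow_ne_zero _ hπ), w.map_mul _ _ (pow_ne_zero _ hπ) h1, h2,
        w.ord_pow hπ, w.ord_pow hπ, w.ord_pow hG, D.Gord] at ho
      have hr := hf.resolve_left h0
      have hp := D.πpos
      by_contra hlt
      push Not at hlt
      have h5 : (k : ℤ) < N := by exact_mod_cast hlt
      nlinarith
    refine ⟨(C (D.p ^ (k - N)) * A).map (OK K w).subtype, (D.G ^ k).map (OK K w).subtype,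
      fun i => ?_, fun i => ?_, ?_, ?_, ?_⟩
    · rw [coeff_map]
      exact ((C (D.p ^ (k - N)) * A).coeff i).2
    · rw [coeff_map]
      exact ((D.G ^ k).coeff i).2
    · rw [← ps_eq, map_pow]
      exact pow_ne_zero _ hG
    · rw [← ps_eq, map_pow, w.ord_pow hG, D.Gord, mul_zero]
    · rw [← ps_eq, ← ps_eq, map_pow, map_mul, ps_C]
      have h4 : algebraMap K L ((D.p ^ (k - N) : OK K w) : K) = algebraMap K L D.π ^ (k - N) := by
        rw [← map_pow]; rfl
      rw [h4]
      have h5 : algebraMap K L D.π ^ k = algebraMap K L D.π ^ N * algebraMap K L D.π ^ (k - N) := by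
        rw [← pow_add, Nat.add_sub_cancel' hNk]
      rw [h5] at h3
      have h6 : algebraMap K L D.π ^ N ≠ 0 := pow_ne_zero _ hπ
      apply mul_left_cancel₀ h6
      rw [← mul_assoc, ← mul_assoc, ← h3]
      ring

end DensL

open DensL

section

variable {K L : Type} [Field K] [Algebra ℂ K] [Field L] [Algebra ℂ L] [Algebra K L]
  [IsScalarTower ℂ K L]

/-- the valuation is not trivial on `K` -/
theorem nontriv {w : DVal L} (halg : ∀ f : L, IsIntegral K f) :
    ∃ f : K, f ≠ 0 ∧ 0 < w.ord (algebraMap K L f) := by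
  by_contra hcon
  push Not at hcon
  have h0 : ∀ f : K, f ≠ 0 → w.ord (algebraMap K L f) = 0 := by
    intro f hf
    have h1 := hcon f hf
    have h2 := hcon f⁻¹ (inv_ne_zero hf)
    rw [map_inv₀, w.ord_inv ((_root_.map_ne_zero _).2 hf)] at h2
    omega
  have hreg : ∀ f : K, w.Reg (algebraMap K L f) := by
    intro f
    by_cases hf : f = 0
    · left; rw [hf, map_zero]
    · right; rw [h0 f hf]
  obtain ⟨l, hl, hl1⟩ := w.surj
  have hm0 : (minpoly K l).coeff 0 ≠ 0 := minpoly.coeff_zero_ne_zero (halg l) hl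
  have h1 : aeval l (minpoly K l) = 0 := minpoly.aeval K l
  have h2 : minpoly K l = X * (minpoly K l).divX + C ((minpoly K l).coeff 0) :=
    (X_mul_divX_add _).symm
  rw [h2, map_add, map_mul, aeval_X, aeval_C] at h1
  have hlreg : w.Reg l := Or.inr (by omega)
  have h3 : w.Reg (aeval l (minpoly K l).divX) := by
    have h : aeval l (minpoly K l).divX ∈ w.O := by
      rw [aeval_eq_sum_range]
      refine Subring.sum_mem _ fun i _ => ?_
      rw [Algebra.smul_def]
      exact Subring.mul_mem _ (hreg _) (Subring.pow_mem _ hlreg _)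
    exact h
  have h4 : w.Pos (algebraMap K L ((minpoly K l).coeff 0)) := by
    have h5 : algebraMap K L ((minpoly K l).coeff 0) = -(aeval l (minpoly K l).divX * l) := by
      rw [mul_comm]
      exact eq_neg_of_add_eq_zero_right h1
    rw [h5]
    exact pos_neg w (w.pos_mul_left h3 (Or.inr (by omega)))
  exact not_pos_of_zero w ((_root_.map_ne_zero _).2 hm0) (h0 _ hm0) h4

theorem exists_dat {X' : AffVar K} {S : Subalgebra ℂ L} (h : Etale X' S)
    (y : S →ₐ[ℂ] ℂ) (w : DVal L) (hy : ∀ f : S, w.Pos (f : L) ↔ y f = 0)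
    (hr : ∀ f : S, w.Reg (f : L)) : Nonempty (Dat (K := K) w h.t) := by
  have htS : h.t ∈ S := by
    have : h.t ∈ Algebra.adjoin ℂ ((algebraMap K L '' (X'.R : Set K)) ∪ {h.t, (aeval h.t h.s)⁻¹}) :=
      Algebra.subset_adjoin (Or.inr (Or.inl rfl))
    rwa [← h.hS] at this
  have hreg : ∀ f ∈ X'.R, w.Reg (algebraMap K L f) := fun f hf => hr ⟨_, h.map_mem hf⟩
  have hcoef : ((minpoly K h.t).coeffs : Set K) ⊆ OK K w := by
    intro a ha
    obtain ⟨i, -, rfl⟩ := Polynomial.mem_coeffs_iff.1 (Finset.mem_coe.1 ha)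
    exact hreg _ (h.mem i)
  let P : (OK K w)[X] := (minpoly K h.t).toSubring (OK K w) hcoef
  have hPmap : P.map (OK K w).subtype = minpoly K h.t := map_toSubring _ _ _
  let c : OK K w := ⟨algebraMap ℂ K (y ⟨h.t, htS⟩), by
    rw [mem_OK, ← IsScalarTower.algebraMap_apply]
    exact w.reg_const _⟩
  let G : (OK K w)[X] := P /ₘ (X - C c)
  have hP : P = (X - C c) * G + C (P.eval c) := by
    have h1 := modByMonic_add_div P (X - C c)
    rw [modByMonic_X_sub_C_eq_C_eval] at h1
    rw [add_comm]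
    exact h1.symm
  have treg : w.Reg h.t := hr ⟨_, htS⟩
  have tc : w.Pos (h.t - algebraMap K L c) := by
    have h1 := (hy (⟨h.t, htS⟩ - algebraMap ℂ S (y ⟨h.t, htS⟩))).2 (by
      rw [map_sub, AlgHom.commutes]
      simp)
    have h2 : ((⟨h.t, htS⟩ - algebraMap ℂ S (y ⟨h.t, htS⟩) : S) : L) = h.t - algebraMap K L c := by
      change h.t - algebraMap ℂ L _ = h.t - algebraMap K L (algebraMap ℂ K _)
      rw [← IsScalarTower.algebraMap_apply]
    rwa [h2] at h1
  have hder : ps w h.t (derivative P) = aeval h.t (derivative (minpoly K h.t)) := by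
    rw [ps_eq, ← derivative_map, hPmap]
  have hdne : aeval h.t (derivative (minpoly K h.t)) ≠ 0 := by
    intro h0
    have : CharZero K := charZero_of_injective_algebraMap (algebraMap ℂ K).injective
    have hsep : (minpoly K h.t).Separable := (minpoly.irreducible h.int).separable
    obtain ⟨a, b, hab⟩ := hsep
    have h1 := congrArg (aeval h.t) hab
    rw [map_add, map_mul, map_mul, minpoly.aeval, h0, mul_zero, mul_zero, add_zero, map_one] at h1
    exact zero_ne_one h1
  have hdp : ¬ w.Pos (ps w h.t (derivative P)) := by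
    intro hpos
    rw [hder] at hpos
    have h1 := w.pos_mul_left (hr ⟨_, h.unit⟩) hpos
    rw [inv_mul_cancel₀ hdne] at h1
    exact not_pos_of_zero w one_ne_zero w.ord_one h1
  have hGp : ¬ w.Pos (ps w h.t G) := by
    intro hpos
    apply hdp
    have h1 : derivative P = G + (X - C c) * derivative G := by
      conv_lhs => rw [hP]
      simp [derivative_mul]
    rw [h1, map_add, map_mul, map_sub, ps_X, ps_C]
    refine w.pos_add hpos ?_
    rw [mul_comm]
    exact w.pos_mul_left (ps_reg w treg _) tc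
  have hGne : ps w h.t G ≠ 0 := fun h0 => hGp (Or.inl h0)
  have hGord : w.ord (ps w h.t G) = 0 := by
    have h1 := (ps_reg w treg G).resolve_left hGne
    by_contra h2
    exact hGp (Or.inr (by omega))
  -- the algebraicity
  have halg : ∀ f : L, IsIntegral K f := by
    intro f
    obtain ⟨a, rfl⟩ := h.gen f
    have ht : h.t ∈ integralClosure K L := h.int
    have : aeval h.t a ∈ integralClosure K L := by
      rw [aeval_eq_sum_range]
      exact Subalgebra.sum_mem _ fun i _ =>
        Subalgebra.smul_mem _ (Subalgebra.pow_mem _ ht _) _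
    exact this
  -- the uniformizer
  have hex : ∃ n : ℕ, ∃ f : K, f ≠ 0 ∧ 0 < w.ord (algebraMap K L f) ∧
      (w.ord (algebraMap K L f)).toNat = n := by
    obtain ⟨f, h1, h2⟩ := nontriv (w := w) halg
    exact ⟨_, f, h1, h2, rfl⟩
  classical
  obtain ⟨π, hπ0, hπ1, hπ2⟩ := Nat.find_spec hex
  refine ⟨{ c := c, P := P, G := G, hP := hP, h0 := ?_, treg := treg, tc := tc, Gne := hGne,
            Gord := hGord, π := π, πne := hπ0, πpos := hπ1, πmin := ?_, gen := h.gen }⟩
  · rw [ps_eq, hPmap, minpoly.aeval]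
  · intro f hf
    by_cases hf0 : f = 0
    · left; rw [hf0, zero_div, map_zero]
    have hf0' : algebraMap K L f ≠ 0 := (_root_.map_ne_zero _).2 hf0
    have h1 := hf.resolve_left hf0'
    have h2 : ¬ (w.ord (algebraMap K L f)).toNat < Nat.find hex := fun h3 =>
      Nat.find_min hex h3 ⟨f, hf0, h1, rfl⟩
    right
    rw [map_div₀, w.ord_div hf0' ((_root_.map_ne_zero _).2 hπ0)]
    omega

theorem dens : S_DENS := by
  intro K L _ _ _ _ _ _ X' S h y w hy hr f hf
  obtain ⟨D⟩ := exists_dat h y w hy hr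
  exact dens' D hf

theorem frac : S_FRAC := by
  intro K L _ _ _ _ _ _ X' S h y w hy hr f hf
  obtain ⟨D⟩ := exists_dat h y w hy hr
  exact frac' D hf

end

end Pool.Agent.Helper58K9.ET
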