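import Pool.Agent.Helper58K9.ET.Dens

/-!
# Étale neighbourhoods: leaf DOWN
-/

set_option autoImplicit false
set_option linter.unusedVariables false
set_option linter.unusedSectionVars false

namespace Pool.Agent.Helper58K9.ET

open Pool.Agent.H436R3.Fol Pool.Agent.H436R3.KT Pool.Agent.W497.Mld
open Polynomial

namespace DownL

variable {K L : Type} [Field K] [Algebra ℂ K] [Field L] [Algebra ℂ L] [Algebra K L]
  [IsScalarTower ℂ K L]

/-- the polynomials with coefficients in `S₀` -/
def PS (S₀ : Subalgebra ℂ K) : Subring K[X] where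
  carrier := {A | ∀ i, A.coeff i ∈ S₀}
  mul_mem' := by
    intro A B hA hB i
    rw [coeff_mul]
    exact Subalgebra.sum_mem _ fun j _ => S₀.mul_mem (hA _) (hB _)
  one_mem' := by
    intro i
    rw [coeff_one]
    split_ifs
    · exact S₀.one_mem
    · exact S₀.zero_mem
  add_mem' := by
    intro A B hA hB i
    rw [coeff_add]
    exact S₀.add_mem (hA i) (hB i)
  zero_mem' := by
    intro i
    rw [coeff_zero]
    exact S₀.zero_mem
  neg_mem' := by
    intro A hA i
    rw [coeff_neg]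
    exact neg_mem (hA i)

theorem mem_PS {S₀ : Subalgebra ℂ K} {A : K[X]} : A ∈ PS S₀ ↔ ∀ i, A.coeff i ∈ S₀ := Iff.rfl

theorem C_mem_PS {S₀ : Subalgebra ℂ K} {a : K} (ha : a ∈ S₀) : C a ∈ PS S₀ := by
  intro i
  rw [coeff_C]
  split_ifs
  · exact ha
  · exact S₀.zero_mem

theorem X_mem_PS {S₀ : Subalgebra ℂ K} : (X : K[X]) ∈ PS S₀ := by
  intro i
  rw [coeff_X]
  split_ifs
  · exact S₀.one_mem
  · exact S₀.zero_mem

theorem exists_map {S₀ : Subalgebra ℂ K} {A : K[X]} (hA : A ∈ PS S₀) :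
    ∃ A' : S₀.toSubring[X], A'.map S₀.toSubring.subtype = A := by
  refine ⟨A.toSubring S₀.toSubring ?_, map_toSubring _ _ _⟩
  intro a ha
  obtain ⟨i, -, rfl⟩ := Polynomial.mem_coeffs_iff.1 (Finset.mem_coe.1 ha)
  exact hA i

theorem map_mem_PS {S₀ : Subalgebra ℂ K} (A' : S₀.toSubring[X]) :
    A'.map S₀.toSubring.subtype ∈ PS S₀ := by
  intro i
  rw [coeff_map]
  exact (A'.coeff i).2

theorem mod_mem_PS {S₀ : Subalgebra ℂ K} {A P : K[X]} (hA : A ∈ PS S₀) (hP : P ∈ PS S₀)
    (hm : P.Monic) : A %ₘ P ∈ PS S₀ ∧ A /ₘ P ∈ PS S₀ := by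
  obtain ⟨A', rfl⟩ := exists_map hA
  obtain ⟨P', rfl⟩ := exists_map hP
  have hm' : P'.Monic := by
    have hinj : Function.Injective S₀.toSubring.subtype := Subtype.val_injective
    exact Polynomial.monic_of_injective hinj hm
  rw [← map_modByMonic _ hm', ← map_divByMonic _ hm']
  exact ⟨map_mem_PS _, map_mem_PS _⟩

/-- the elements `A (t) / B (t)` with `B (t)` a unit -/
def Lo (S₀ : Subalgebra ℂ K) (w : DVal L) (t : L) : Subalgebra ℂ L where
  carrier := {f | ∃ A ∈ PS S₀, ∃ B ∈ PS S₀, aeval t B ≠ 0 ∧ w.ord (aeval t B) = 0 ∧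
    f * aeval t B = aeval t A}
  mul_mem' := by
    rintro f f' ⟨A, hA, B, hB, h1, h2, h3⟩ ⟨A', hA', B', hB', h1', h2', h3'⟩
    refine ⟨A * A', mul_mem hA hA', B * B', mul_mem hB hB', ?_, ?_, ?_⟩
    · rw [map_mul]; exact mul_ne_zero h1 h1'
    · rw [map_mul, w.map_mul _ _ h1 h1', h2, h2', add_zero]
    · rw [map_mul, map_mul, ← h3, ← h3']
      ring
  add_mem' := by
    rintro f f' ⟨A, hA, B, hB, h1, h2, h3⟩ ⟨A', hA', B', hB', h1', h2', h3'⟩
    refine ⟨A * B' + A' * B, add_mem (mul_mem hA hB') (mul_mem hA' hB), B * B', mul_mem hB hB',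
      ?_, ?_, ?_⟩
    · rw [map_mul]; exact mul_ne_zero h1 h1'
    · rw [map_mul, w.map_mul _ _ h1 h1', h2, h2', add_zero]
    · rw [map_add, map_mul, map_mul, map_mul, ← h3, ← h3']
      ring
  algebraMap_mem' := by
    intro c
    refine ⟨C (algebraMap ℂ K c), C_mem_PS (S₀.algebraMap_mem c), 1, one_mem _, ?_, ?_, ?_⟩
    · rw [map_one]; exact one_ne_zero
    · rw [map_one, w.ord_one]
    · rw [map_one, mul_one, aeval_C, ← IsScalarTower.algebraMap_apply]

/-- the valuation ring as a subalgebra -/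
def OA (v : DVal K) : Subalgebra ℂ K where
  carrier := {f | v.Reg f}
  mul_mem' := v.reg_mul
  add_mem' := v.reg_add
  algebraMap_mem' := v.reg_const

/-- the restriction of a valuation -/
def rest (w : DVal L) (hs : ∃ f : K, f ≠ 0 ∧ w.ord (algebraMap K L f) = 1) : DVal K where
  ord f := w.ord (algebraMap K L f)
  map_mul f g hf hg := by
    rw [map_mul, w.map_mul _ _ ((_root_.map_ne_zero _).2 hf) ((_root_.map_ne_zero _).2 hg)]
  map_add f g hf hg hfg := by
    rw [map_add]
    refine w.map_add _ _ ((_root_.map_ne_zero _).2 hf) ((_root_.map_ne_zero _).2 hg) ?_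
    rw [← map_add]
    exact (_root_.map_ne_zero _).2 hfg
  surj := hs
  const c hc := by
    rw [← IsScalarTower.algebraMap_apply]
    exact w.const c hc

theorem rest_pos {w : DVal L} {hs : ∃ f : K, f ≠ 0 ∧ w.ord (algebraMap K L f) = 1} {f : K} :
    (rest w hs).Pos f ↔ w.Pos (algebraMap K L f) := by
  unfold DVal.Pos
  rw [map_eq_zero]
  rfl

theorem rest_reg {w : DVal L} {hs : ∃ f : K, f ≠ 0 ∧ w.ord (algebraMap K L f) = 1} {f : K} :
    (rest w hs).Reg f ↔ w.Reg (algebraMap K L f) := by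
  unfold DVal.Reg
  rw [map_eq_zero]
  rfl

end DownL

open DownL DensL

theorem down (hD : S_DENS) (hF : S_FRAC) : S_DOWN := by
  intro K L _ _ _ _ _ _ X' S h y w hw
  obtain ⟨⟨S', hfg, hSS', hl⟩, hy⟩ := hw
  have hr : ∀ f : S, w.Reg (f : L) := fun f => hl.1 f (hSS' f.2)
  have htS : h.t ∈ S := by
    have : h.t ∈ Algebra.adjoin ℂ ((algebraMap K L '' (X'.R : Set K)) ∪ {h.t, (aeval h.t h.s)⁻¹}) :=
      Algebra.subset_adjoin (Or.inr (Or.inl rfl))
    rwa [← h.hS] at this
  have htreg : w.Reg h.t := hr ⟨_, htS⟩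
  have hs : ∃ f : K, f ≠ 0 ∧ w.ord (algebraMap K L f) = 1 := by
    obtain ⟨f, hf, hf1⟩ := w.surj
    obtain ⟨g, hg, hg1⟩ := hD h y w hy hr f hf
    have hg' : algebraMap K L g ≠ 0 := (_root_.map_ne_zero _).2 hg
    have h1 := (one_pos_ne w hg1).2
    rw [w.ord_div hf hg'] at h1
    exact ⟨g, hg, by omega⟩
  refine ⟨rest w hs, ⟨?_, ?_⟩, fun f _ => rfl⟩
  · classical
    obtain ⟨s, hs'⟩ := hfg
    have hsS : ∀ f ∈ s, f ∈ S' := fun f hf => by
      rw [← hs']
      exact Algebra.subset_adjoin hf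
    have hex : ∀ f : L, ∃ A B : K[X], f ∈ s → (∀ i, w.Reg (algebraMap K L (A.coeff i))) ∧
        (∀ i, w.Reg (algebraMap K L (B.coeff i))) ∧ aeval h.t B ≠ 0 ∧
        w.ord (aeval h.t B) = 0 ∧ f * aeval h.t B = aeval h.t A := by
      intro f
      by_cases hf : f ∈ s
      · obtain ⟨A, B, h1⟩ := hF h y w hy hr f (hl.1 f (hsS f hf))
        exact ⟨A, B, fun _ => h1⟩
      · exact ⟨0, 0, fun h1 => absurd h1 hf⟩
    choose A B hAB using hex
    let G : Finset K := s.biUnion fun f => (A f).coeffs ∪ (B f).coeffs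
    let S₀ : Subalgebra ℂ K := X'.R ⊔ Algebra.adjoin ℂ (G : Set K)
    have hRS : X'.R ≤ S₀ := le_sup_left
    have hG : ∀ a ∈ G, a ∈ S₀ := fun a ha =>
      (le_sup_right : Algebra.adjoin ℂ (G : Set K) ≤ S₀) (Algebra.subset_adjoin ha)
    have hAm : ∀ f ∈ s, A f ∈ PS S₀ := by
      intro f hf i
      by_cases h0 : (A f).coeff i = 0
      · rw [h0]; exact S₀.zero_mem
      · refine hG _ (Finset.mem_biUnion.2 ⟨f, hf, Finset.mem_union_left _ ?_⟩)
        exact Polynomial.coeff_mem_coeffs h0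
    have hBm : ∀ f ∈ s, B f ∈ PS S₀ := by
      intro f hf i
      by_cases h0 : (B f).coeff i = 0
      · rw [h0]; exact S₀.zero_mem
      · refine hG _ (Finset.mem_biUnion.2 ⟨f, hf, Finset.mem_union_right _ ?_⟩)
        exact Polynomial.coeff_mem_coeffs h0
    have hSO : S₀ ≤ OA (rest w hs) := by
      refine sup_le ?_ (Algebra.adjoin_le ?_)
      · intro f hf
        exact rest_reg.2 (hr ⟨_, h.map_mem hf⟩)
      · intro a ha
        obtain ⟨f, hf, ha'⟩ := Finset.mem_biUnion.1 (Finset.mem_coe.1 ha)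
        refine rest_reg.2 ?_
        rcases Finset.mem_union.1 ha' with h1 | h1
        · obtain ⟨i, -, rfl⟩ := Polynomial.mem_coeffs_iff.1 h1
          exact (hAB f hf).1 i
        · obtain ⟨i, -, rfl⟩ := Polynomial.mem_coeffs_iff.1 h1
          exact (hAB f hf).2.1 i
    have hLo : S' ≤ Lo S₀ w h.t := by
      rw [← hs']
      refine Algebra.adjoin_le fun f hf => ?_
      obtain ⟨-, -, h3, h4, h5⟩ := hAB f hf
      exact ⟨A f, hAm f hf, B f, hBm f hf, h3, h4, h5⟩
    have hPm : (minpoly K h.t).Monic := minpoly.monic h.int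
    have hPS : minpoly K h.t ∈ PS S₀ := fun i => hRS (h.mem i)
    refine ⟨S₀, ?_, hRS, fun f hf => hSO hf, fun f hf => ?_⟩
    · refine Subalgebra.FG.sup X'.fg ?_
      exact Subalgebra.fg_adjoin_finset G
    · -- `f` is a fraction
      have hf' := rest_reg.1 hf
      obtain ⟨a, b, ha, hb, hb0, hbo, hfb⟩ := hl.2 _ hf'
      obtain ⟨A₁, hA₁, B₁, hB₁, h1, h2, h3⟩ := hLo ha
      obtain ⟨A₂, hA₂, B₂, hB₂, h4, h5, h6⟩ := hLo hb
      have hA2 : aeval h.t A₂ ≠ 0 := by
        rw [← h6]; exact mul_ne_zero hb0 h4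
      have hA2o : w.ord (aeval h.t A₂) = 0 := by
        rw [← h6, w.map_mul _ _ hb0 h4, hbo, h5, add_zero]
      -- `f (A₂ B₁) (t) = (A₁ B₂) (t)`
      have h7 : algebraMap K L f * aeval h.t (A₂ * B₁) = aeval h.t (A₁ * B₂) := by
        rw [map_mul, map_mul, ← h6, ← h3, ← hfb]
        ring
      set U := (A₂ * B₁) %ₘ (minpoly K h.t) with hU
      set V := (A₁ * B₂) %ₘ (minpoly K h.t) with hV
      have hUm : U ∈ PS S₀ := (mod_mem_PS (mul_mem hA₂ hB₁) hPS hPm).1
      have hVm : V ∈ PS S₀ := (mod_mem_PS (mul_mem hA₁ hB₂) hPS hPm).1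
      have hmod : ∀ q : K[X], aeval h.t (q %ₘ minpoly K h.t) = aeval h.t q := by
        intro q
        have h8 := congrArg (aeval h.t) (modByMonic_add_div q (minpoly K h.t))
        rw [map_add, map_mul, minpoly.aeval, zero_mul, add_zero] at h8
        exact h8
      have hUt : aeval h.t U = aeval h.t (A₂ * B₁) := hmod _
      have hVt : aeval h.t V = aeval h.t (A₁ * B₂) := hmod _
      have hzero : C f * U - V = 0 := by
        by_contra hne
        have h8 : aeval h.t (C f * U - V) = 0 := by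
          rw [map_sub, map_mul, aeval_C, hUt, hVt, h7, sub_self]
        have h9 := minpoly.degree_le_of_ne_zero K h.t hne h8
        have h10 : (C f * U - V).degree < (minpoly K h.t).degree := by
          refine (degree_sub_le _ _).trans_lt (max_lt ?_ ?_)
          · rw [← smul_eq_C_mul]
            refine (degree_smul_le f U).trans_lt ?_
            exact degree_modByMonic_lt _ hPm
          · exact degree_modByMonic_lt _ hPm
        exact absurd h9 (not_le.2 h10)
      have hcoef : ∀ i, f * U.coeff i = V.coeff i := by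
        intro i
        have h8 := congrArg (fun q => q.coeff i) hzero
        simp only [coeff_sub, coeff_C_mul, coeff_zero] at h8
        exact sub_eq_zero.1 h8
      obtain ⟨j, hj⟩ : ∃ j, ¬ (rest w hs).Pos (U.coeff j) := by
        by_contra hcon
        push Not at hcon
        have h8 : w.Pos (aeval h.t U) := by
          rw [aeval_eq_sum_range]
          have : ∀ m : ℕ, w.Pos (∑ i ∈ Finset.range m, U.coeff i • h.t ^ i) := by
            intro m
            induction m with
            | zero => left; simp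
            | succ m ih =>
              rw [Finset.sum_range_succ]
              refine w.pos_add ih ?_
              rw [Algebra.smul_def, mul_comm]
              refine w.pos_mul_left ?_ (rest_pos.1 (hcon m))
              have : h.t ^ m ∈ w.O := Subring.pow_mem _ htreg _
              exact this
          exact this _
        have h9 : aeval h.t U ≠ 0 := by
          rw [hUt, map_mul]
          exact mul_ne_zero hA2 h1
        refine not_pos_of_zero w h9 ?_ h8
        rw [hUt, map_mul, w.map_mul _ _ hA2 h1, hA2o, h2, add_zero]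
      have hj0 : U.coeff j ≠ 0 := fun h8 => hj (Or.inl h8)
      refine ⟨V.coeff j, U.coeff j, hVm j, hUm j, hj0, ?_, hcoef j⟩
      have h8 := (hSO (hUm j)).resolve_left hj0
      by_contra h9
      exact hj (Or.inr (by omega))
  · intro f
    rw [rest_pos]
    exact hy (h.inc f)

end Pool.Agent.Helper58K9.ET
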