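import Pool.Agent.Helper58K9.ET.Stm
import Pool.Agent.H436R3.Fol.Val

/-!
[EXTD] extension of derivations which preserve the valuation ring.
-/

set_option autoImplicit false

namespace Pool.Agent.Helper58K9.ET

open Pool.Agent.H436R3.Fol Pool.Agent.H436R3.KT Pool.Agent.W497.Mld
open Polynomial (aeval)

namespace ExtdL

variable {K L : Type} [Field K] [Algebra ℂ K] [Field L] [Algebra ℂ L] [Algebra K L]

/-- the derivative of a polynomial expression -/
theorem der_aeval (D : Derivation ℂ K K) (D' : Derivation ℂ L L)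
    (hD : ∀ f, D' (algebraMap K L f) = algebraMap K L (D f)) (t : L) (A : Polynomial K) :
    ∃ B : Polynomial K, (∀ i, B.coeff i = D (A.coeff i)) ∧
      D' (aeval t A) = aeval t B + aeval t (Polynomial.derivative A) * D' t := by
  induction A using Polynomial.induction_on' with
  | add p q hp hq =>
    obtain ⟨B, h1, h2⟩ := hp
    obtain ⟨C, h3, h4⟩ := hq
    refine ⟨B + C, fun i => ?_, ?_⟩
    · rw [Polynomial.coeff_add, Polynomial.coeff_add, h1, h3, map_add]
    · rw [map_add, map_add, h2, h4, map_add, Polynomial.derivative_add, map_add]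
      ring
  | monomial n a =>
    refine ⟨Polynomial.monomial n (D a), fun i => ?_, ?_⟩
    · rw [Polynomial.coeff_monomial, Polynomial.coeff_monomial]
      split_ifs
      · rfl
      · rw [map_zero]
    · rw [Polynomial.aeval_monomial, Polynomial.aeval_monomial, Polynomial.derivative_monomial,
        Polynomial.aeval_monomial, D'.leibniz, D'.leibniz_pow, hD]
      simp only [smul_eq_mul, nsmul_eq_mul, map_mul, map_natCast]
      ring

theorem reg_sum {w : DVal L} {ι : Type} (s : Finset ι) (f : ι → L)
    (h : ∀ i ∈ s, w.Reg (f i)) : w.Reg (∑ i ∈ s, f i) := by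
  classical
  induction s using Finset.induction_on with
  | empty => exact w.reg_zero
  | insert a s ha ih =>
    rw [Finset.sum_insert ha]
    exact w.reg_add (h a (Finset.mem_insert_self _ _))
      (ih fun i hi => h i (Finset.mem_insert_of_mem hi))

theorem reg_pow {w : DVal L} {t : L} (ht : w.Reg t) (n : ℕ) : w.Reg (t ^ n) := by
  induction n with
  | zero => rw [pow_zero]; exact w.reg_one
  | succ n ih => rw [pow_succ]; exact w.reg_mul ih ht

theorem reg_aeval {w : DVal L} {t : L} (ht : w.Reg t) {A : Polynomial K}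
    (hA : ∀ i, w.Reg (algebraMap K L (A.coeff i))) : w.Reg (aeval t A) := by
  rw [Polynomial.aeval_eq_sum_range]
  refine reg_sum _ _ fun i _ => ?_
  rw [Algebra.smul_def]
  exact w.reg_mul (hA i) (reg_pow ht i)

theorem reg_iff {w : DVal L} {v : DVal K}
    (hwv : ∀ f : K, f ≠ 0 → w.ord (algebraMap K L f) = v.ord f) (f : K) :
    w.Reg (algebraMap K L f) ↔ v.Reg f := by
  by_cases h0 : f = 0
  · rw [h0, map_zero]
    exact ⟨fun _ => v.reg_zero, fun _ => w.reg_zero⟩
  · have h1 : algebraMap K L f ≠ 0 := (map_ne_zero_iff _ (algebraMap K L).injective).2 h0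
    constructor
    · intro h
      right
      rw [← hwv f h0]
      exact h.resolve_left h1
    · intro h
      right
      rw [hwv f h0]
      exact h.resolve_left h0

end ExtdL

open ExtdL

theorem extd (hfrac : S_FRAC) : S_EXTD := by
  intro K L _ _ _ _ _ _ X S h y w v hover hwv D hD D' hDD
  obtain ⟨⟨S', -, hSS', hloc⟩, hpos⟩ := hover
  have hreg : ∀ f ∈ S, w.Reg f := fun f hf => hloc.1 f (hSS' hf)
  have ht : w.Reg h.t := hreg _ ((le_of_eq h.hS.symm) (Algebra.subset_adjoin (Or.inr (by simp))))
  have hcK : ∀ f ∈ X.R, w.Reg (algebraMap K L f) := fun f hf => hreg _ (h.map_mem hf)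
  have : CharZero K := charZero_of_injective_algebraMap (algebraMap ℂ K).injective
  have hp' : aeval h.t (Polynomial.derivative (minpoly K h.t)) ≠ 0 :=
    (minpoly.irreducible h.int).separable.aeval_derivative_ne_zero (minpoly.aeval K h.t)
  -- the derivative of `t`
  have hDt : w.Reg (D' h.t) := by
    obtain ⟨B, hB1, hB2⟩ := der_aeval D D' hDD h.t (minpoly K h.t)
    rw [minpoly.aeval, map_zero] at hB2
    have hB3 : w.Reg (aeval h.t B) := reg_aeval ht fun i => by
      rw [hB1, reg_iff hwv]
      exact hD _ ((reg_iff hwv _).1 (hcK _ (h.mem i)))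
    have h1 : D' h.t = -(aeval h.t B * (aeval h.t (Polynomial.derivative (minpoly K h.t)))⁻¹) := by
      field_simp
      linear_combination -hB2
    rw [h1]
    exact w.reg_neg (w.reg_mul hB3 (hreg _ h.unit))
  have hpoly : ∀ A : Polynomial K, (∀ i, w.Reg (algebraMap K L (A.coeff i))) →
      w.Reg (D' (aeval h.t A)) := by
    intro A hA
    obtain ⟨B, hB1, hB2⟩ := der_aeval D D' hDD h.t A
    rw [hB2]
    refine w.reg_add (reg_aeval ht fun i => ?_) (w.reg_mul (reg_aeval ht fun i => ?_) hDt)
    · rw [hB1, reg_iff hwv]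
      exact hD _ ((reg_iff hwv _).1 (hA i))
    · rw [Polynomial.coeff_derivative, map_mul]
      refine w.reg_mul (hA _) ?_
      have : algebraMap K L ((i : K) + 1) = algebraMap ℂ L ((i : ℂ) + 1) := by simp
      rw [this]
      exact w.reg_const _
  intro f hf
  obtain ⟨A, B, hA, hB, hB0, hBo, hfB⟩ := hfrac h y w hpos (fun f => hreg _ f.2) f hf
  have h1 : D' f * aeval h.t B + f * D' (aeval h.t B) = D' (aeval h.t A) := by
    rw [← hfB, D'.leibniz, smul_eq_mul, smul_eq_mul]
    ring
  have h2 : D' f = (D' (aeval h.t A) + -(f * D' (aeval h.t B))) * (aeval h.t B)⁻¹ := by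
    field_simp
    linear_combination h1
  rw [h2]
  refine w.reg_mul (w.reg_add (hpoly A hA) (w.reg_neg (w.reg_mul hf (hpoly B hB)))) ?_
  right
  rw [w.ord_inv hB0, hBo, neg_zero]

end Pool.Agent.Helper58K9.ET
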