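import Pool.Agent.Helper58K9.ET.Down

/-!
# Étale neighbourhoods: leaf OPEN
-/

set_option autoImplicit false
set_option linter.unusedVariables false
set_option linter.unusedSectionVars false

namespace Pool.Agent.Helper58K9.ET

open Pool.Agent.H436R3.Fol Pool.Agent.H436R3.KT Pool.Agent.W497.Mld
open Polynomial

namespace OpnL

/-- if all roots of the monic polynomial `P` are roots of `G` then `P` divides a power of `G` -/
theorem dvd_pow_of_roots {P G : ℂ[X]} (hP : P.Monic) (h : ∀ c, P.eval c = 0 → G.eval c = 0) :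
    P ∣ G ^ P.natDegree := by
  have hs := IsAlgClosed.splits P
  rw [hs.natDegree_eq_card_roots]
  conv_lhs => rw [hs.eq_prod_roots_of_monic hP]
  have key : ∀ m : Multiset ℂ, (∀ c ∈ m, G.eval c = 0) →
      (m.map fun c => X - C c).prod ∣ G ^ (Multiset.card m) := by
    intro m
    induction m using Multiset.induction_on with
    | empty => intro _; simp
    | cons a m ih =>
      intro hm
      rw [Multiset.map_cons, Multiset.prod_cons, Multiset.card_cons, pow_succ, mul_comm (X - C a)]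
      exact mul_dvd_mul (ih fun c hc => hm c (Multiset.mem_cons_of_mem hc))
        (dvd_iff_isRoot.2 (hm a (Multiset.mem_cons_self a m)))
  refine key _ fun c hc => h c ?_
  exact (mem_roots hP.ne_zero).1 hc

variable {K L : Type} [Field K] [Algebra ℂ K] [Field L] [Algebra ℂ L] [Algebra K L]
  [IsScalarTower ℂ K L] {X' : AffVar K} {S : Subalgebra ℂ L} (h : Etale X' S)

/-- evaluation at `t` -/
noncomputable def ps (X' : AffVar K) (t : L) : X'.R[X] →+* L :=
  Polynomial.eval₂RingHom ((algebraMap K L).comp X'.R.val.toRingHom) t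

theorem ps_X (t : L) : ps X' t X = t := by simp [ps]

theorem ps_C (t : L) (a : X'.R) : ps X' t (C a) = algebraMap K L a := by simp [ps]

theorem ps_eq (t : L) (A : X'.R[X]) : ps X' t A = aeval t (A.map X'.R.val.toRingHom) := by
  rw [ps, coe_eval₂RingHom, aeval_def, eval₂_map]

/-- the value at a point of `X` and a number -/
noncomputable def vx (x : Pt X') (c : ℂ) : X'.R[X] →+* ℂ :=
  Polynomial.eval₂RingHom x.toRingHom c

theorem vx_X (x : Pt X') (c : ℂ) : vx x c X = c := by simp [vx]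

theorem vx_C (x : Pt X') (c : ℂ) (a : X'.R) : vx x c (C a) = x a := by simp [vx]

theorem vx_eq (x : Pt X') (c : ℂ) (A : X'.R[X]) : vx x c A = (A.map x.toRingHom).eval c := by
  rw [vx, coe_eval₂RingHom, eval_map]

/-- lift of a polynomial with coefficients in `X'.R` -/
theorem exists_lift {A : K[X]} (hA : ∀ i, A.coeff i ∈ X'.R) :
    ∃ A' : X'.R[X], A'.map X'.R.val.toRingHom = A := by
  have h1 : A ∈ Polynomial.lifts X'.R.val.toRingHom := by
    rw [Polynomial.lifts_iff_coeff_lifts]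
    intro i
    exact ⟨⟨_, hA i⟩, rfl⟩
  exact (Polynomial.mem_lifts A).1 h1

theorem val_inj : Function.Injective X'.R.val.toRingHom := Subtype.val_injective

/-- the data -/
structure Dt {X' : AffVar K} {S : Subalgebra ℂ L} (h : Etale X' S) where
  P : X'.R[X]
  s : X'.R[X]
  hP : P.map X'.R.val.toRingHom = minpoly K h.t
  hs : s.map X'.R.val.toRingHom = h.s
  hm : P.Monic

theorem exists_dt : Nonempty (Dt h) := by
  obtain ⟨P, hP⟩ := exists_lift h.mem
  obtain ⟨s, hs⟩ := exists_lift h.smem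
  exact ⟨⟨P, s, hP, hs, Polynomial.monic_of_injective val_inj (hP ▸ minpoly.monic h.int)⟩⟩

variable {h} (D : Dt h)

include D

theorem psP : ps X' h.t D.P = 0 := by rw [ps_eq, D.hP, minpoly.aeval]

theorem pss : ps X' h.t D.s = aeval h.t h.s := by rw [ps_eq, D.hs]

theorem pss_ne : ps X' h.t D.s ≠ 0 := by rw [pss]; exact h.sne

theorem dvd_of_zero {A : X'.R[X]} (hA : ps X' h.t A = 0) : D.P ∣ A := by
  rw [ps_eq] at hA
  have h1 := minpoly.dvd K h.t hA
  rw [← D.hP] at h1
  rw [← modByMonic_eq_zero_iff_dvd D.hm]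
  apply Polynomial.map_injective _ val_inj
  rw [map_modByMonic _ D.hm, Polynomial.map_zero,
    modByMonic_eq_zero_iff_dvd (D.hm.map _)]
  exact h1

theorem vx_of_zero {x : Pt X'} {c : ℂ} (hc : vx x c D.P = 0) {A : X'.R[X]}
    (hA : ps X' h.t A = 0) : vx x c A = 0 := by
  obtain ⟨Q, rfl⟩ := dvd_of_zero D hA
  rw [map_mul, hc, zero_mul]

/-- the form of the elements of `S` -/
theorem form {f : L} (hf : f ∈ S) : ∃ (k : ℕ) (A : X'.R[X]),
    f * ps X' h.t D.s ^ k = ps X' h.t A := by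
  have hf' := hf
  rw [h.hS] at hf'
  refine Algebra.adjoin_induction (p := fun f _ => ∃ (k : ℕ) (A : X'.R[X]),
    f * ps X' h.t D.s ^ k = ps X' h.t A) ?_ ?_ ?_ ?_ hf'
  · rintro f (⟨a, ha, rfl⟩ | rfl | rfl)
    · exact ⟨0, C ⟨a, ha⟩, by rw [ps_C]; simp⟩
    · exact ⟨0, X, by rw [ps_X]; simp⟩
    · refine ⟨1, 1, ?_⟩
      rw [map_one, pow_one, pss D]
      exact inv_mul_cancel₀ h.sne
  · intro c
    refine ⟨0, C (algebraMap ℂ X'.R c), ?_⟩
    rw [ps_C, pow_zero, mul_one]
    change _ = algebraMap K L (algebraMap ℂ K c)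
    rw [← IsScalarTower.algebraMap_apply]
  · rintro f g - - ⟨k, A, h1⟩ ⟨k', A', h2⟩
    refine ⟨k + k', A * D.s ^ k' + A' * D.s ^ k, ?_⟩
    rw [map_add, map_mul, map_mul, map_pow, map_pow, ← h1, ← h2]
    ring
  · rintro f g - - ⟨k, A, h1⟩ ⟨k', A', h2⟩
    refine ⟨k + k', A * A', ?_⟩
    rw [map_mul, ← h1, ← h2]
    ring

theorem uniq {x : Pt X'} {c : ℂ} (hc : vx x c D.P = 0) {f : L} {k k' : ℕ} {A A' : X'.R[X]}
    (h1 : f * ps X' h.t D.s ^ k = ps X' h.t A) (h2 : f * ps X' h.t D.s ^ k' = ps X' h.t A') :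
    vx x c A * vx x c D.s ^ k' = vx x c A' * vx x c D.s ^ k := by
  have h3 : ps X' h.t (A * D.s ^ k' - A' * D.s ^ k) = 0 := by
    rw [map_sub, map_mul, map_mul, map_pow, map_pow, ← h1, ← h2]
    ring
  have h4 := vx_of_zero D hc h3
  rw [map_sub, map_mul, map_mul, map_pow, map_pow] at h4
  exact sub_eq_zero.1 h4

/-- the point -/
theorem exists_pt {x : Pt X'} {c : ℂ} (hc : vx x c D.P = 0) (hs : vx x c D.s ≠ 0) :
    ∃ y : S →ₐ[ℂ] ℂ, ∀ (f : S) (k : ℕ) (A : X'.R[X]),
      (f : L) * ps X' h.t D.s ^ k = ps X' h.t A → y f * vx x c D.s ^ k = vx x c A := by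
  classical
  have hex : ∀ f : S, ∃ z : ℂ, ∀ (k : ℕ) (A : X'.R[X]),
      (f : L) * ps X' h.t D.s ^ k = ps X' h.t A → z * vx x c D.s ^ k = vx x c A := by
    intro f
    obtain ⟨k, A, h1⟩ := form D f.2
    refine ⟨vx x c A / vx x c D.s ^ k, fun k' A' h2 => ?_⟩
    have h3 := uniq D hc h1 h2
    rw [div_mul_eq_mul_div, h3, mul_div_assoc, div_self (pow_ne_zero _ hs), mul_one]
  choose z hz using hex
  refine ⟨{ toFun := z, map_one' := ?_, map_mul' := ?_, map_zero' := ?_, map_add' := ?_,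
            commutes' := ?_ }, hz⟩
  · have h1 := hz 1 0 1 (by rw [map_one]; simp)
    rw [pow_zero, mul_one, map_one] at h1
    exact h1
  · intro f g
    obtain ⟨k, A, h1⟩ := form D f.2
    obtain ⟨k', A', h2⟩ := form D g.2
    have h3 := hz (f * g) (k + k') (A * A') (by
      rw [map_mul, ← h1, ← h2]
      push_cast
      ring)
    rw [map_mul, ← hz f k A h1, ← hz g k' A' h2] at h3
    have h4 : vx x c D.s ^ (k + k') ≠ 0 := pow_ne_zero _ hs
    apply mul_right_cancel₀ h4
    rw [h3]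
    ring
  · have h1 := hz 0 0 0 (by rw [map_zero]; simp)
    rw [pow_zero, mul_one, map_zero] at h1
    exact h1
  · intro f g
    obtain ⟨k, A, h1⟩ := form D f.2
    obtain ⟨k', A', h2⟩ := form D g.2
    have h3 := hz (f + g) (k + k') (A * D.s ^ k' + A' * D.s ^ k) (by
      rw [map_add, map_mul, map_mul, map_pow, map_pow, ← h1, ← h2]
      push_cast
      ring)
    rw [map_add, map_mul, map_mul, map_pow, map_pow, ← hz f k A h1, ← hz g k' A' h2] at h3
    have h4 : vx x c D.s ^ (k + k') ≠ 0 := pow_ne_zero _ hs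
    apply mul_right_cancel₀ h4
    rw [h3]
    ring
  · intro a
    have h1 := hz (algebraMap ℂ S a) 0 (C (algebraMap ℂ X'.R a)) (by
      rw [ps_C, pow_zero, mul_one]
      change algebraMap ℂ L a = algebraMap K L (algebraMap ℂ K a)
      rw [← IsScalarTower.algebraMap_apply])
    rw [pow_zero, mul_one, vx_C, AlgHom.commutes] at h1
    exact h1

/-- the value at a given point of `U` -/
theorem vx_im (y : S →ₐ[ℂ] ℂ) (ht : h.t ∈ S) (A : X'.R[X]) (hA : ps X' h.t A ∈ S) :
    vx (h.im y) (y ⟨h.t, ht⟩) A = y ⟨ps X' h.t A, hA⟩ := by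
  -- the homomorphism to `S`
  let ph : X'.R[X] →+* S := Polynomial.eval₂RingHom h.inc.toRingHom ⟨h.t, ht⟩
  have h1 : ∀ B : X'.R[X], ((ph B : S) : L) = ps X' h.t B := by
    intro B
    have h2 : (S.val.toRingHom.comp ph) = ps X' h.t := by
      refine Polynomial.ringHom_ext (fun a => ?_) ?_
      · simp only [ph, RingHom.comp_apply, coe_eval₂RingHom, eval₂_C, ps_C]
        rfl
      · simp only [ph, RingHom.comp_apply, coe_eval₂RingHom, eval₂_X, ps_X]
        rfl
    exact congrArg (fun g => g B) h2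
  have h3 : (⟨ps X' h.t A, hA⟩ : S) = ph A := Subtype.ext (h1 A).symm
  rw [h3]
  have h4 : (y.toRingHom.comp ph) = vx (h.im y) (y ⟨h.t, ht⟩) := by
    refine Polynomial.ringHom_ext (fun a => ?_) ?_
    · simp only [ph, RingHom.comp_apply, coe_eval₂RingHom, eval₂_C, vx_C]
      rfl
    · simp only [ph, RingHom.comp_apply, coe_eval₂RingHom, eval₂_X, vx_X]
      rfl
  exact (congrArg (fun g => g A) h4).symm

end OpnL

open OpnL

theorem opn : S_OPEN := by
  intro K L _ _ _ _ _ _ X' S h y q hq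
  obtain ⟨D⟩ := exists_dt h
  have htS : h.t ∈ S := by
    have : h.t ∈ Algebra.adjoin ℂ ((algebraMap K L '' (X'.R : Set K)) ∪ {h.t, (aeval h.t h.s)⁻¹}) :=
      Algebra.subset_adjoin (Or.inr (Or.inl rfl))
    rwa [← h.hS] at this
  have hsS : (aeval h.t h.s)⁻¹ ∈ S := by
    have : (aeval h.t h.s)⁻¹ ∈
        Algebra.adjoin ℂ ((algebraMap K L '' (X'.R : Set K)) ∪ {h.t, (aeval h.t h.s)⁻¹}) :=
      Algebra.subset_adjoin (Or.inr (Or.inr rfl))
    rwa [← h.hS] at this
  have hpsS : ∀ A : X'.R[X], ps X' h.t A ∈ S := by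
    intro A
    rw [ps, coe_eval₂RingHom, eval₂_eq_sum, Polynomial.sum]
    exact Subalgebra.sum_mem _ fun i _ => S.mul_mem (h.map_mem (A.coeff i).2) (S.pow_mem htS _)
  set c := y ⟨h.t, htS⟩ with hc
  have hval : ∀ A : X'.R[X], vx (h.im y) c A = y ⟨ps X' h.t A, hpsS A⟩ := fun A =>
    vx_im D y htS A (hpsS A)
  -- `s` does not vanish
  have hs : vx (h.im y) c D.s ≠ 0 := by
    rw [hval]
    intro h0
    have h1 : (⟨ps X' h.t D.s, hpsS D.s⟩ : S) * ⟨_, hsS⟩ = 1 := by
      apply Subtype.ext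
      change ps X' h.t D.s * (aeval h.t h.s)⁻¹ = 1
      rw [pss D]
      exact mul_inv_cancel₀ h.sne
    have h2 := congrArg y h1
    rw [map_mul, h0, zero_mul, map_one] at h2
    exact zero_ne_one h2
  obtain ⟨k, b, hb⟩ := form D q.2
  have hb0 : vx (h.im y) c b ≠ 0 := by
    rw [hval]
    have h1 : (⟨ps X' h.t b, hpsS b⟩ : S) = q * ⟨ps X' h.t D.s, hpsS D.s⟩ ^ k := by
      apply Subtype.ext
      change ps X' h.t b = (q : L) * ps X' h.t D.s ^ k
      exact hb.symm
    rw [h1, map_mul, map_pow, ← hval]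
    exact mul_ne_zero hq (pow_ne_zero _ hs)
  set G := D.s * b with hG
  have hG0 : vx (h.im y) c G ≠ 0 := by
    rw [hG, map_mul]
    exact mul_ne_zero hs hb0
  have hP0 : vx (h.im y) c D.P = 0 := by
    rw [hval]
    have h1 : (⟨ps X' h.t D.P, hpsS D.P⟩ : S) = 0 := Subtype.ext (psP D)
    rw [h1, map_zero]
  set r := (G ^ D.P.natDegree) %ₘ D.P with hr
  have hmap : ∀ x : Pt X', r.map x.toRingHom =
      ((G.map x.toRingHom) ^ (D.P.map x.toRingHom).natDegree) %ₘ (D.P.map x.toRingHom) := by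
    intro x
    rw [hr, map_modByMonic _ D.hm, Polynomial.map_pow, D.hm.natDegree_map]
  have hne : r.map (h.im y).toRingHom ≠ 0 := by
    intro h0
    rw [hmap, modByMonic_eq_zero_iff_dvd (D.hm.map _)] at h0
    obtain ⟨Q, hQ⟩ := h0
    have h1 := congrArg (Polynomial.eval c) hQ
    rw [eval_pow, eval_mul, ← vx_eq, ← vx_eq, hP0, zero_mul] at h1
    exact pow_ne_zero _ hG0 h1
  obtain ⟨i, hi⟩ : ∃ i, (h.im y) (r.coeff i) ≠ 0 := by
    by_contra hcon
    push Not at hcon
    apply hne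
    ext i
    rw [coeff_map, coeff_zero]
    exact hcon i
  refine ⟨r.coeff i, hi, fun x hx => ?_⟩
  have hrx : r.map x.toRingHom ≠ 0 := by
    intro h0
    apply hx
    have h1 := congrArg (fun p => p.coeff i) h0
    simp only [coeff_map, coeff_zero] at h1
    exact h1
  have hnd : ¬ (D.P.map x.toRingHom) ∣ (G.map x.toRingHom) ^ (D.P.map x.toRingHom).natDegree := by
    intro h0
    apply hrx
    rw [hmap, modByMonic_eq_zero_iff_dvd (D.hm.map _)]
    exact h0
  obtain ⟨c', hc1, hc2⟩ : ∃ c', (D.P.map x.toRingHom).eval c' = 0 ∧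
      (G.map x.toRingHom).eval c' ≠ 0 := by
    by_contra hcon
    push Not at hcon
    exact hnd (dvd_pow_of_roots (D.hm.map _) hcon)
  rw [← vx_eq] at hc1 hc2
  rw [hG, map_mul] at hc2
  have hs' : vx x c' D.s ≠ 0 := left_ne_zero_of_mul hc2
  have hb' : vx x c' b ≠ 0 := right_ne_zero_of_mul hc2
  obtain ⟨y', hy'⟩ := exists_pt D hc1 hs'
  refine ⟨y', ?_, ?_⟩
  · ext f
    have h1 := hy' (h.inc f) 0 (C f) (by
      rw [ps_C, pow_zero, mul_one]
      rfl)
    rw [pow_zero, mul_one, vx_C] at h1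
    exact h1
  · intro h0
    have h1 := hy' q k b hb
    rw [h0, zero_mul] at h1
    exact hb' h1.symm

end Pool.Agent.Helper58K9.ET
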