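import Pool.Agent.Helper58K9.ET.Stm

/-!
# Étale neighbourhoods: the identity
-/

set_option autoImplicit false

namespace Pool.Agent.Helper58K9.ET

open Pool.Agent.H436R3.Fol Pool.Agent.H436R3.KT Pool.Agent.W497.Mld Pool.Agent.Helper58K9.AR
open Polynomial

variable {K : Type} [Field K] [Algebra ℂ K]

/-- the identity is étale -/
noncomputable def idEtale (X' : AffVar K) : Etale X' X'.R where
  t := 0
  int := isIntegral_zero
  gen f := ⟨C f, by simp⟩
  mem i := by
    rw [minpoly.zero, coeff_X]
    split_ifs
    · exact X'.R.one_mem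
    · exact X'.R.zero_mem
  s := 1
  smem i := by
    rw [coeff_one]
    split_ifs
    · exact X'.R.one_mem
    · exact X'.R.zero_mem
  sne := by rw [map_one]; exact one_ne_zero
  hS := by
    apply le_antisymm
    · intro f hf
      exact Algebra.subset_adjoin (Or.inl ⟨f, hf, rfl⟩)
    · refine Algebra.adjoin_le ?_
      rintro f (⟨a, ha, rfl⟩ | rfl | rfl)
      · exact ha
      · exact X'.R.zero_mem
      · rw [map_one, inv_one]
        exact X'.R.one_mem
  unit := by
    rw [minpoly.zero, derivative_X, map_one, inv_one]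
    exact X'.R.one_mem

theorem idEtale_im (X' : AffVar K) (x : Pt X') : (idEtale X').im x = x := by
  ext f
  rfl

/-- Every pair is étale locally isomorphic to itself. -/
theorem common_refl {X' : AffVar K} {B : EffDiv X'} (E : ∀ x : Pt X', LocEq B x) (x : Pt X') :
    Common E x E x := by
  refine ⟨K, inferInstance, inferInstance, Algebra.id K, inferInstance, Algebra.id K,
    inferInstance, X'.R, idEtale X', idEtale X', X'.T, X'.T, ⟨X'.top, fun _ _ => rfl⟩,
    ⟨X'.top, fun _ _ => rfl⟩, ⟨x, idEtale_im X' x, idEtale_im X' x⟩, ?_⟩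
  intro y w _ n n' hn hn'
  rw [hn.unique hn']

end Pool.Agent.Helper58K9.ET
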