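import Pool.Agent.Helper58K9.ET.Defs

/-!
# Étale neighbourhoods: statements of the leaves
-/

set_option autoImplicit false

namespace Pool.Agent.Helper58K9.ET

open Pool.Agent.H436R3.Fol Pool.Agent.H436R3.KT Pool.Agent.W497.Mld
open Polynomial (aeval)

/-- DENS. PROOF: let `p` be the minimal polynomial of `t`, `c = y t ∈ ℂ`, `p = (T - c) G + p (c)`
(`G` has coefficients in `X.R`), so `(t - c) G (t) = - p (c)`; `w.Pos (t - c)`, and
`w (G (t)) = 0` because `G (t) - p' (t)` and `G (t) - G (c)`, `p' (t) - p' (c)` are divisible by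
`t - c`, `G (c) = p' (c)`, and `p' (t)` is a unit of `S`. `w` is not trivial on `K` (`L` is algebraic
over `K`); let `π ∈ K` have the least positive value. STEP: if `A ∈ K [T]` has coefficients which are
regular at `w`, and `w.Pos (A (t))`, then `G (t) A (t) = π A'' (t)`, `A''` with regular coefficients:
`A = (T - c) A₁ + A (c)`, `w.Pos (A (c))`, so `A (c) = π α`, `p (c) = π β`, and
`G (t) A (t) = - π β A₁ (t) + π α G (t)`. Induction on `w (A (t))`: `A (t) G (t) ^ k = π ^ k A' (t)`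
with `w (A' (t)) = 0`, and `A' (t) / A' (c)`, `G (t) / G (c)` are `1` mod the maximal ideal. Every
`f ∈ L` is `π ^ (-N) A (t)` by `h.gen`. -/
def S_DENS : Prop := ∀ {K L : Type} [Field K] [Algebra ℂ K] [Field L] [Algebra ℂ L] [Algebra K L]
  [IsScalarTower ℂ K L] {X : AffVar K} {S : Subalgebra ℂ L} (_ : Etale X S)
  (y : S →ₐ[ℂ] ℂ) (w : DVal L), (∀ f : S, w.Pos (f : L) ↔ y f = 0) → (∀ f : S, w.Reg (f : L)) →
  ∀ f : L, f ≠ 0 → ∃ g : K, g ≠ 0 ∧ w.Pos (f / algebraMap K L g - 1)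

/-- FRAC, the second result of the proof of DENS: every regular `f` is `A (t) / B (t)`, where `A`, `B`
have regular coefficients and `w (B (t)) = 0` (take `B = G ^ k`). -/
def S_FRAC : Prop := ∀ {K L : Type} [Field K] [Algebra ℂ K] [Field L] [Algebra ℂ L] [Algebra K L]
  [IsScalarTower ℂ K L] {X : AffVar K} {S : Subalgebra ℂ L} (h : Etale X S)
  (y : S →ₐ[ℂ] ℂ) (w : DVal L), (∀ f : S, w.Pos (f : L) ↔ y f = 0) → (∀ f : S, w.Reg (f : L)) →
  ∀ f : L, w.Reg f → ∃ A B : Polynomial K, (∀ i, w.Reg (algebraMap K L (A.coeff i))) ∧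
    (∀ i, w.Reg (algebraMap K L (B.coeff i))) ∧ aeval h.t B ≠ 0 ∧ w.ord (aeval h.t B) = 0 ∧
    f * aeval h.t B = aeval h.t A

/-- UP. PROOF: `exists_dval_unif` of `Pool.Agent.Helper43K9.NH.Dvr`. Let `S₀` be finitely generated,
`X.R ≤ S₀`, `IsLocalRing' S₀ v`, `π ∈ S₀` with `v (π) = 1` (if `v (f) = 1`, `f b = a`, `v (b) = 0` take
`π = a`). Apply it to `S₀ [t] = {A (t) : A ∈ S₀ [T]}` and to the prime ideal `𝔫` of the `A (t)` with
`v.Pos (A (c))`, `c = y t` (well defined: if `A (t) = 0` then `A = p Q`, `Q ∈ S₀ [T]` because `p` is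
monic, and `v.Pos (p (c))`, since `x (p (c)) = y (p (t)) = 0`, `x = h.im y`). Condition `hloc`:
`A = (T - c) A₁ + A (c)`, `(t - c) G (t) = - p (c)`, so `G (t) A (t) = - p (c) A₁ (t) + A (c) G (t)`, and
`p (c) b = π b'`, `A (c) a = π a'` with `a, b, a', b' ∈ S₀`, `v (a) = v (b) = 0` (`p (c) / π` and
`A (c) / π` are regular); `s = a b G (t)` is not in `𝔫` as `G (c) = p' (c)` and
`x (p' (c)) = y (p' (t)) ≠ 0`. The valuation `w`: for `f ∈ S₀` `w.Pos f ↔ v.Pos f`, and `w (π) = 1`, so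
`w = v` on `K`. `S' = S₀ [t] ⊔ S` (`s (t)` is a unit at `w`, since `v.Pos (s (c)) ↔ y (s (t)) = 0`). -/
def S_UP : Prop := ∀ {K L : Type} [Field K] [Algebra ℂ K] [Field L] [Algebra ℂ L] [Algebra K L]
  [IsScalarTower ℂ K L] {X : AffVar K} {S : Subalgebra ℂ L} (h : Etale X S)
  (y : S →ₐ[ℂ] ℂ) (v : DVal K), IsOverGerm (h.im y) v →
  ∃ w : DVal L, OverPt S y w ∧ ∀ f : K, f ≠ 0 → w.ord (algebraMap K L f) = v.ord f

/-- DOWN. PROOF: `v` is the restriction of `w`; by DENS it takes the value `1`. Divisorial: let `S'`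
be finitely generated, `S ≤ S'`, `IsLocalRing' S' w`. By FRAC all the finitely many generators of
`S'` are `A_i (t) / B_i (t)`, `w (B_i (t)) = 0`; let `S₀ ⊂ K` be generated by `X.R` and by the
coefficients of the `A_i`, `B_i`. The elements `A (t) / B (t)` with `A, B ∈ S₀ [T]`, `w (B (t)) = 0`
are a subring which contains `S'`, and then the whole valuation ring of `w`. Let `f ∈ K` be regular:
`f B (t) = A (t)`; we may assume that `A`, `B` have degree less than the one of `p`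
(`Polynomial.modByMonic` by `p`, `p ∈ X.R [T]`), so `f B_j = A_j` for all coefficients; and
`v (B_j) = 0` for some `j`, since `w (B (t)) = 0` and `t` is regular. So `IsLocalRing' S₀ v`. -/
def S_DOWN : Prop := ∀ {K L : Type} [Field K] [Algebra ℂ K] [Field L] [Algebra ℂ L] [Algebra K L]
  [IsScalarTower ℂ K L] {X : AffVar K} {S : Subalgebra ℂ L} (h : Etale X S)
  (y : S →ₐ[ℂ] ℂ) (w : DVal L), OverPt S y w →
  ∃ v : DVal K, IsOverGerm (h.im y) v ∧ ∀ f : K, f ≠ 0 → w.ord (algebraMap K L f) = v.ord f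

/-- EXTD. PROOF: let `D = ∑_j A_ij X.T_j` and `D' = ∑_j A_ij T_j`; `D' = D` on `K`. By FRAC it is enough
that `D' t` is regular: `0 = D' (p (t)) = p^D (t) + p' (t) D' t`, where `p^D` has the coefficients
`D (p_i)`, which are regular, and `p' (t)` is a unit of `S`. -/
def S_EXTD : Prop := ∀ {K L : Type} [Field K] [Algebra ℂ K] [Field L] [Algebra ℂ L] [Algebra K L]
  [IsScalarTower ℂ K L] {X : AffVar K} {S : Subalgebra ℂ L} (_ : Etale X S)
  (y : S →ₐ[ℂ] ℂ) (w : DVal L) (v : DVal K), OverPt S y w →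
  (∀ f : K, f ≠ 0 → w.ord (algebraMap K L f) = v.ord f) →
  ∀ D : Derivation ℂ K K, Preserves v D → ∀ D' : Derivation ℂ L L,
    (∀ f, D' (algebraMap K L f) = algebraMap K L (D f)) → Preserves w D'

/-- APPR. PROOF: let the rows of `A'` preserve `w`, with `w (det A') = m`. The `T_j` are combinations of
these rows (`A'` is invertible), so there is an `N` with `w (T_j f) ≥ - N` for all regular `f`. By the
density (iterate it) there is a matrix `A` over `K` such that the entries of `A' - A` are zero or of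
order `≥ N'`, `N' ≥ N`, and so large that `w (det A' - det A) > m` (or `det A' = det A`). Then for
regular `f ∈ K`: `∑_j A_ij T_j f = ∑_j A'_ij T_j f - ∑_j (A' - A)_ij T_j f` is regular. -/
def S_APPR : Prop := ∀ {K L : Type} [Field K] [Algebra ℂ K] [Field L] [Algebra ℂ L] [Algebra K L]
  [IsScalarTower ℂ K L] {X : AffVar K} (T : Foliation L X.d) (_ : Ext X T)
  (w : DVal L) (v : DVal K), (∀ f : K, f ≠ 0 → w.ord (algebraMap K L f) = v.ord f) →
  (∀ f : L, f ≠ 0 → ∃ g : K, g ≠ 0 ∧ w.Pos (f / algebraMap K L g - 1)) →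
  ∀ A' : Matrix (Fin X.d) (Fin X.d) L, A'.det ≠ 0 →
    (∀ i, Preserves w (∑ j, A' i j • T.D j)) →
    ∃ A : Matrix (Fin X.d) (Fin X.d) K, A.det ≠ 0 ∧
      (∀ i, Preserves v (∑ j, A i j • X.T.D j)) ∧ v.ord A.det = w.ord A'.det

/-- OPEN. PROOF: let `p` be the minimal polynomial, `q = b (t) / s (t) ^ k`, `b ∈ X.R [T]`, and
`G = s b`. The remainder `r` of `G ^ n` by `p`, `n = deg p`, has coefficients in `X.R`. At
`x = h.im y` the polynomial `p_x` has the root `c = y t` which is not a root of `G_x`, so `p_x` does not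
divide `G_x ^ n`, `r_x ≠ 0`, some coefficient `f` of `r` has `x f ≠ 0`. If `x' f ≠ 0` then `p_{x'}` does
not divide `G_{x'} ^ n`, so `p_{x'}` has a root `c'` with `G_{x'} (c') ≠ 0` (`IsAlgClosed.splits`,
all multiplicities are `≤ n`). The point `y'` maps `A (t) / s (t) ^ k` to
`A_{x'} (c') / s_{x'} (c') ^ k`; well defined: `A (t) = 0` implies `A = p Q` with `Q ∈ X.R [T]`. (The
elements `(A (t) / s (t) ^ k, A_{x'} (c') / s_{x'} (c') ^ k)` are a subalgebra of `L × ℂ` whose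
projection to `S` is bijective.) -/
def S_OPEN : Prop := ∀ {K L : Type} [Field K] [Algebra ℂ K] [Field L] [Algebra ℂ L] [Algebra K L]
  [IsScalarTower ℂ K L] {X : AffVar K} {S : Subalgebra ℂ L} (h : Etale X S)
  (y : S →ₐ[ℂ] ℂ) (q : S), y q ≠ 0 →
  ∃ f : X.R, (h.im y) f ≠ 0 ∧ ∀ x : Pt X, x f ≠ 0 → ∃ y' : S →ₐ[ℂ] ℂ, h.im y' = x ∧ y' q ≠ 0

/-- CHG: change of the basis. -/
def S_CHG : Prop := ∀ {L : Type} [Field L] [Algebra ℂ L] {d d' : ℕ} (T : Foliation L d)
  (T' : Foliation L d'), T.space = ⊤ → T'.space = ⊤ → ∀ (w : DVal L) (n : ℤ), IsCanOrd T w n →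
  ∃ n', IsCanOrd T' w n'

end Pool.Agent.Helper58K9.ET
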