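import Pool.Agent.Helper58K9.ET.Stm
import Pool.Agent.Helper58K9.ET.Dens
import Pool.Agent.Helper43K9.NH.Dvr

/-!
# Étale neighbourhoods: leaf UP
-/

set_option autoImplicit false
set_option linter.unusedVariables false
set_option linter.unusedSectionVars false

namespace Pool.Agent.Helper58K9.ET

open Pool.Agent.H436R3.Fol Pool.Agent.H436R3.KT Pool.Agent.W497.Mld
open Polynomial

namespace UpL

variable {K L : Type} [Field K] [Algebra ℂ K] [Field L] [Algebra ℂ L] [Algebra K L]
  [IsScalarTower ℂ K L]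

/-- the regular elements as a subalgebra -/
def OA (w : DVal L) : Subalgebra ℂ L := { w.O with algebraMap_mem' := w.reg_const }

theorem mem_OA {w : DVal L} {f : L} : f ∈ OA w ↔ w.Reg f := Iff.rfl

theorem pos_or {w : DVal L} {a b : L} (ha : w.Reg a) (hb : w.Reg b) (h : w.Pos (a * b)) :
    w.Pos a ∨ w.Pos b := by
  by_cases h1 : a = 0
  · left; left; exact h1
  by_cases h2 : b = 0
  · right; left; exact h2
  have h3 := h.resolve_left (mul_ne_zero h1 h2)
  rw [w.map_mul _ _ h1 h2] at h3
  have h4 := ha.resolve_left h1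
  have h5 := hb.resolve_left h2
  by_cases h6 : 0 < w.ord a
  · left; right; exact h6
  · right; right; omega

theorem ord_zero_of {w : DVal L} {a : L} (ha : w.Reg a) (h : ¬ w.Pos a) : a ≠ 0 ∧ w.ord a = 0 := by
  have h1 : a ≠ 0 := fun h0 => h (Or.inl h0)
  refine ⟨h1, ?_⟩
  have h2 := ha.resolve_left h1
  by_contra h3
  exact h (Or.inr (by omega))

/-- evaluation of polynomials over `X.R` -/
theorem yx {X' : AffVar K} {S : Subalgebra ℂ L} (h : Etale X' S) (y : S →ₐ[ℂ] ℂ) (htS : h.t ∈ S)
    (A : X'.R[X]) : ∃ hm : aeval h.t A ∈ S, y ⟨aeval h.t A, hm⟩ =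
      h.im y (A.eval (algebraMap ℂ X'.R (y ⟨h.t, htS⟩))) := by
  have h1 : ((eval₂ (h.inc : X'.R →+* S) ⟨h.t, htS⟩ A : S) : L) = aeval h.t A := by
    have := hom_eval₂ A (h.inc : X'.R →+* S) (S.val : S →+* L) ⟨h.t, htS⟩
    rw [aeval_def]
    exact this
  refine ⟨h1 ▸ Subtype.prop _, ?_⟩
  have h2 : (⟨aeval h.t A, h1 ▸ Subtype.prop _⟩ : S) = eval₂ (h.inc : X'.R →+* S) ⟨h.t, htS⟩ A :=
    Subtype.ext h1.symm
  rw [h2]
  have h3 := hom_eval₂ A (h.inc : X'.R →+* S) (y : S →+* ℂ) ⟨h.t, htS⟩
  have h4 := hom_eval₂ A (RingHom.id X'.R) (h.im y : X'.R →+* ℂ)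
    (algebraMap ℂ X'.R (y ⟨h.t, htS⟩))
  rw [eval₂_id] at h4
  have h5 : (h.im y : X'.R →+* ℂ) (algebraMap ℂ X'.R (y ⟨h.t, htS⟩)) = y ⟨h.t, htS⟩ :=
    (h.im y).commutes _
  rw [h5] at h4
  refine Eq.trans h3 (Eq.trans ?_ h4.symm)
  rfl

theorem t_mem {X' : AffVar K} {S : Subalgebra ℂ L} (h : Etale X' S) : h.t ∈ S := by
  have : h.t ∈ Algebra.adjoin ℂ ((algebraMap K L '' (X'.R : Set K)) ∪ {h.t, (aeval h.t h.s)⁻¹}) :=
    Algebra.subset_adjoin (Or.inr (Or.inl rfl))
  rwa [← h.hS] at this

theorem sinv_mem {X' : AffVar K} {S : Subalgebra ℂ L} (h : Etale X' S) :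
    (aeval h.t h.s)⁻¹ ∈ S := by
  have : (aeval h.t h.s)⁻¹ ∈
      Algebra.adjoin ℂ ((algebraMap K L '' (X'.R : Set K)) ∪ {h.t, (aeval h.t h.s)⁻¹}) :=
    Algebra.subset_adjoin (Or.inr (Or.inr rfl))
  rwa [← h.hS] at this

theorem lift_of {S₀ : Subalgebra ℂ K} {a : K[X]} (ha : ∀ i, a.coeff i ∈ S₀) :
    ∃ A : S₀[X], A.map (algebraMap S₀ K) = a := by
  have h : a ∈ lifts (algebraMap S₀ K) := by
    rw [lifts_iff_coeff_lifts]
    intro i
    exact ⟨⟨_, ha i⟩, rfl⟩
  exact (mem_lifts _).1 h

theorem clear {X' : AffVar K} {S₀ : Subalgebra ℂ K} (hle : X'.R ≤ S₀) (t : L) (a : K[X]) :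
    ∃ d : S₀, (d : K) ≠ 0 ∧ ∃ A : S₀[X], aeval t a * algebraMap K L d = aeval t A := by
  induction a using Polynomial.induction_on' with
  | add p q hp hq =>
    obtain ⟨d, hd, A, hA⟩ := hp
    obtain ⟨d', hd', A', hA'⟩ := hq
    refine ⟨d * d', mul_ne_zero hd hd', A * C d' + A' * C d, ?_⟩
    rw [map_add, map_add, map_mul, map_mul, aeval_C, aeval_C, ← hA, ← hA']
    change _ * algebraMap K L ((d : K) * d') = _ * algebraMap K L (d' : K) + _ * algebraMap K L (d : K)
    rw [map_mul]
    ring
  | monomial n b =>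
    obtain ⟨a', d, ha', hd, hd0, hb⟩ := X'.frac b
    refine ⟨⟨d, hle hd⟩, hd0, C ⟨a', hle ha'⟩ * X ^ n, ?_⟩
    rw [map_mul, map_pow, aeval_X, aeval_C, aeval_monomial]
    change _ * _ * algebraMap K L d = algebraMap K L a' * t ^ n
    rw [← hb, map_mul]
    ring

end UpL

open UpL

theorem up : S_UP := by
  intro K L _ _ _ _ _ _ X' S h y v hv
  obtain ⟨⟨S₀, hS₀fg, hle, hl⟩, hx⟩ := hv
  set t := h.t with ht
  have htS : t ∈ S := t_mem h
  set c : ℂ := y ⟨t, htS⟩ with hc
  set cK : K := algebraMap ℂ K c with hcK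
  -- the polynomial over `X.R`
  obtain ⟨PR, hPR⟩ := lift_of h.mem
  have hinj : Function.Injective (algebraMap S₀ K) := Subtype.val_injective
  let inc : X'.R →+* S₀ := (Subalgebra.inclusion hle : X'.R →ₐ[ℂ] S₀)
  have hinc : ∀ A : X'.R[X], (A.map inc).map (algebraMap S₀ K) = A.map (algebraMap X'.R K) := by
    intro A
    rw [map_map]
    rfl
  set P : S₀[X] := PR.map inc with hPdef
  have hPK : P.map (algebraMap S₀ K) = minpoly K t := by rw [hPdef, hinc, hPR]
  have hPm : P.Monic := monic_of_injective hinj (by rw [hPK]; exact minpoly.monic h.int)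
  have hevK : ∀ A : S₀[X], aeval t (A.map (algebraMap S₀ K)) = aeval t A := fun A =>
    aeval_map_algebraMap K t A
  have hdvd : ∀ A : S₀[X], aeval t A = 0 → P ∣ A := by
    intro A hA
    rw [← map_dvd_map (algebraMap S₀ K) hinj hPm, hPK]
    exact minpoly.dvd K t (by rw [hevK, hA])
  -- evaluation at `c` of polynomials over `X.R`
  have hcR : ∀ A : X'.R[X], ((A.eval (algebraMap ℂ X'.R c) : X'.R) : K) = aeval cK (A.map inc) := by
    intro A
    have h1 := hom_eval₂ A (RingHom.id X'.R) (X'.R.val : X'.R →+* K) (algebraMap ℂ X'.R c)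
    rw [eval₂_id] at h1
    refine Eq.trans h1 ?_
    rw [aeval_def, eval₂_map]
    rfl
  have htR : ∀ A : X'.R[X], aeval t (A.map inc) = aeval t A := by
    intro A
    rw [aeval_def, eval₂_map, aeval_def]
    rfl
  have hyR : ∀ A : X'.R[X], ∀ hm : aeval t A ∈ S, y ⟨aeval t A, hm⟩ = 0 ↔
      v.Pos (aeval cK (A.map inc)) := by
    intro A hm
    obtain ⟨hm', h1⟩ := yx h y htS A
    rw [h1, ← hcR, hx]
  -- elements regular at `v`
  have hregc : ∀ A : S₀[X], v.Reg (aeval cK A) := by
    intro A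
    have h1 : aeval cK A ∈ v.O := by
      rw [aeval_eq_sum_range]
      refine Subring.sum_mem _ fun i _ => ?_
      rw [Algebra.smul_def]
      exact Subring.mul_mem _ (hl.1 _ (A.coeff i).2) (Subring.pow_mem _ (v.reg_const c) _)
    exact h1
  have hvneg : ∀ {u : K}, v.Pos u → v.Pos (-u) := fun hu => DensL.pos_neg v hu
  -- well definedness
  have hPc : v.Pos (aeval cK P) := by
    have h0 : aeval t PR = 0 := by
      rw [← htR, ← hPdef, ← hevK, hPK, minpoly.aeval]
    have hm : aeval t PR ∈ S := by rw [h0]; exact S.zero_mem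
    rw [hPdef, ← hyR PR hm]
    have : (⟨aeval t PR, hm⟩ : S) = 0 := Subtype.ext h0
    rw [this, map_zero]
  have hwd : ∀ A : S₀[X], aeval t A = 0 → v.Pos (aeval cK A) := by
    intro A hA
    obtain ⟨Q, rfl⟩ := hdvd A hA
    rw [map_mul, mul_comm]
    exact v.pos_mul_left (hregc Q) hPc
  -- the ring
  let ev : S₀[X] →ₐ[ℂ] L := (aeval t : S₀[X] →ₐ[S₀] L).restrictScalars ℂ
  have hev : ∀ A, ev A = aeval t A := fun A => rfl
  let R₁ : Subalgebra ℂ L := ev.range
  have hR₁ : ∀ A : S₀[X], aeval t A ∈ R₁ := fun A => ⟨A, rfl⟩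
  have hfg : R₁.FG := by
    rw [Subalgebra.fg_iff_finiteType]
    have h1 : Algebra.FiniteType ℂ S₀ := (Subalgebra.fg_iff_finiteType _).1 hS₀fg
    have h2 : Algebra.FiniteType ℂ S₀[X] := Algebra.FiniteType.trans h1 inferInstance
    exact Algebra.FiniteType.of_surjective ev.rangeRestrict ev.rangeRestrict_surjective
  have hwd' : ∀ A B : S₀[X], aeval t A = aeval t B → v.Pos (aeval cK B) → v.Pos (aeval cK A) := by
    intro A B hAB hB
    have h1 := hwd (A - B) (by rw [map_sub, hAB, sub_self])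
    rw [map_sub] at h1
    have h2 : aeval cK A = (aeval cK A - aeval cK B) + aeval cK B := by ring
    rw [h2]
    exact v.pos_add h1 hB
  let N : Ideal R₁ :=
    { carrier := {f | ∃ A : S₀[X], aeval t A = (f : L) ∧ v.Pos (aeval cK A)}
      add_mem' := by
        rintro f g ⟨A, hA, hA'⟩ ⟨B, hB, hB'⟩
        refine ⟨A + B, ?_, ?_⟩
        · rw [map_add, hA, hB]; rfl
        · rw [map_add]; exact v.pos_add hA' hB'
      zero_mem' := ⟨0, by simp, by rw [map_zero]; exact Or.inl rfl⟩
      smul_mem' := by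
        rintro ⟨g, B, hB⟩ f ⟨A, hA, hA'⟩
        refine ⟨B * A, ?_, ?_⟩
        · rw [map_mul, hA]
          have hB' : aeval t B = g := hB
          rw [hB']
          rfl
        · rw [map_mul]; exact v.pos_mul_left (hregc B) hA' }
  have hN : ∀ f : R₁, ∀ A : S₀[X], aeval t A = (f : L) → (f ∈ N ↔ v.Pos (aeval cK A)) := by
    intro f A hA
    constructor
    · rintro ⟨B, hB, hB'⟩
      exact hwd' A B (hA.trans hB.symm) hB'
    · intro h1
      exact ⟨A, hA, h1⟩
  have hNp : N.IsPrime := by
    constructor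
    · intro htop
      have h1 : (1 : R₁) ∈ N := by rw [htop]; exact Submodule.mem_top
      rw [hN 1 1 (by rw [map_one]; rfl), map_one] at h1
      exact DensL.not_pos_of_zero v one_ne_zero v.ord_one h1
    · rintro ⟨f, A, hA⟩ ⟨g, B, hB⟩ hfg
      have hA' : aeval t A = f := hA
      have hB' : aeval t B = g := hB
      rw [hN _ (A * B) (by rw [map_mul, hA', hB']; rfl), map_mul] at hfg
      rcases pos_or (hregc A) (hregc B) hfg with h1 | h1
      · left; exact (hN _ A hA').2 h1
      · right; exact (hN _ B hB').2 h1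
  -- the uniformizer
  have hmake : ∀ g : K, v.Reg g → ∃ (a b : S₀), (b : K) ≠ 0 ∧ v.ord (b : K) = 0 ∧ g * b = a := by
    intro g hg
    obtain ⟨a, b, ha, hb, hb0, hb1, hab⟩ := hl.2 g hg
    exact ⟨⟨a, ha⟩, ⟨b, hb⟩, hb0, hb1, hab⟩
  obtain ⟨π₀, hπ₀0, hπ₀1⟩ := v.surj
  obtain ⟨π, b₀, hb₀0, hb₀1, hπb⟩ := hmake π₀ (Or.inr (by omega))
  have hπ0 : (π : K) ≠ 0 := by rw [← hπb]; exact mul_ne_zero hπ₀0 hb₀0
  have hπ1 : v.ord (π : K) = 1 := by
    rw [← hπb, v.map_mul _ _ hπ₀0 hb₀0, hπ₀1, hb₀1]; rfl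
  -- divisibility by the uniformizer
  have hdiv : ∀ g : K, v.Pos g → ∃ (a b : S₀), (b : K) ≠ 0 ∧ v.ord (b : K) = 0 ∧ g * b = π * a := by
    intro g hg
    have h1 : v.Reg (g / π) := by
      by_cases hg0 : g = 0
      · left; rw [hg0, zero_div]
      · right
        have := hg.resolve_left hg0
        rw [v.ord_div hg0 hπ0, hπ1]
        omega
    obtain ⟨a, b, hb0, hb1, hab⟩ := hmake _ h1
    refine ⟨a, b, hb0, hb1, ?_⟩
    rw [← hab]
    field_simp
  have hπL : algebraMap K L (π : K) ≠ 0 := (_root_.map_ne_zero _).2 hπ0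
  have hCc : ∀ a : S₀, aeval cK (C a : S₀[X]) = (a : K) := fun a => aeval_C cK a
  have hCt : ∀ a : S₀, aeval t (C a : S₀[X]) = algebraMap K L (a : K) := fun a => aeval_C t a
  -- the factorisation of `P`
  let cS : S₀ := algebraMap ℂ S₀ c
  have hcS : (cS : K) = cK := rfl
  have hdivc : ∀ A : S₀[X], A = (X - C cS) * (A /ₘ (X - C cS)) + C (A.eval cS) := by
    intro A
    have h1 := modByMonic_add_div A (X - C cS)
    rw [modByMonic_X_sub_C_eq_C_eval] at h1
    rw [add_comm]
    exact h1.symm
  have hevc : ∀ A : S₀[X], ((A.eval cS : S₀) : K) = aeval cK A := by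
    intro A
    have h1 := hom_eval₂ A (RingHom.id S₀) (S₀.val : S₀ →+* K) cS
    rw [eval₂_id] at h1
    exact h1
  set G : S₀[X] := P /ₘ (X - C cS) with hG
  have hPG : P = (X - C cS) * G + C (P.eval cS) := hdivc P
  have hPt : aeval t P = 0 := by rw [← hevK, hPK, minpoly.aeval]
  have hGt : (t - algebraMap K L cK) * aeval t G = -algebraMap K L (aeval cK P) := by
    have h1 := congrArg (aeval t) hPG
    rw [hPt, map_add, map_mul, map_sub, aeval_X, hCt, hCt, hevc, hcS] at h1
    exact eq_neg_of_add_eq_zero_left h1.symm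
  have hAt : ∀ A : S₀[X], aeval t A = (t - algebraMap K L cK) * aeval t (A /ₘ (X - C cS)) +
      algebraMap K L (aeval cK A) := by
    intro A
    have h1 := congrArg (aeval t) (hdivc A)
    rwa [map_add, map_mul, map_sub, aeval_X, hCt, hCt, hevc, hcS] at h1
  have hGc : ¬ v.Pos (aeval cK G) := by
    intro hpos
    have h1 : aeval cK (derivative P) = aeval cK G := by
      conv_lhs => rw [hPG]
      simp only [derivative_add, derivative_mul, derivative_sub, derivative_X, derivative_C,
        sub_zero, one_mul, add_zero, map_add, map_mul, map_sub, aeval_X, hCc, hcS, sub_self,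
        zero_mul]
    have h2 : derivative P = (derivative PR).map inc := by rw [hPdef, derivative_map]
    obtain ⟨hm, -⟩ := yx h y htS (derivative PR)
    rw [← h1, h2, ← hyR _ hm] at hpos
    have h3 : aeval t (derivative PR) = aeval t (derivative (minpoly K t)) := by
      rw [← htR, ← h2, ← hevK, ← derivative_map, hPK]
    have h4 : aeval t (derivative (minpoly K t)) ≠ 0 := by
      intro h0
      have : CharZero K := charZero_of_injective_algebraMap (algebraMap ℂ K).injective
      have hsep : (minpoly K t).Separable := (minpoly.irreducible h.int).separable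
      obtain ⟨a, b, hab⟩ := hsep
      have h1 := congrArg (aeval t) hab
      rw [map_add, map_mul, map_mul, minpoly.aeval, h0, mul_zero, mul_zero, add_zero, map_one] at h1
      exact zero_ne_one h1
    have h5 : (⟨aeval t (derivative PR), hm⟩ : S) *
        ⟨(aeval t (derivative (minpoly K t)))⁻¹, h.unit⟩ = 1 := by
      apply Subtype.ext
      change aeval t (derivative PR) * (aeval t (derivative (minpoly K t)))⁻¹ = 1
      rw [h3, mul_inv_cancel₀ h4]
    have h6 := congrArg y h5
    rw [map_mul, hpos, zero_mul, map_one] at h6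
    exact zero_ne_one h6
  -- the valuation
  obtain ⟨w, hw1, hw2, hw3⟩ := Pool.Agent.Helper43K9.NH.exists_dval_unif hfg
    (by
      intro f
      obtain ⟨a, rfl⟩ := h.gen f
      obtain ⟨d, hd, A, hA⟩ := clear hle t a
      exact ⟨aeval t A, algebraMap K L d, hR₁ A, by rw [← hCt]; exact hR₁ _,
        (_root_.map_ne_zero _).2 hd, hA⟩) N hNp
    ⟨algebraMap K L (π : K), by rw [← hCt]; exact hR₁ _⟩
    (by
      intro h0
      exact hπL (congrArg Subtype.val h0))
    ((hN _ (C π) (hCt π)).2 (by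
      rw [hCc]
      exact Or.inr (by omega)))
    (by
      rintro ⟨f, A, hA⟩ hf
      have hA' : aeval t A = f := hA
      rw [hN _ A hA'] at hf
      obtain ⟨b', b, hb0, hb1, hbb⟩ := hdiv _ hPc
      obtain ⟨a', a, ha0, ha1, haa⟩ := hdiv _ hf
      refine ⟨⟨aeval t (C (a * b) * G), hR₁ _⟩, ?_,
        ⟨aeval t (C (b * a') * G - C (a * b') * (A /ₘ (X - C cS))), hR₁ _⟩, ?_⟩
      · rw [hN _ (C (a * b) * G) rfl, map_mul, hCc]
        intro h1
        have hra : v.Reg ((a * b : S₀) : K) := hl.1 _ (a * b).2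
        rcases pos_or hra (hregc G) h1 with h2 | h2
        · have hab0 : ((a * b : S₀) : K) ≠ 0 := mul_ne_zero ha0 hb0
          have hab1 : v.ord ((a * b : S₀) : K) = 0 := by
            change v.ord ((a : K) * b) = 0
            rw [v.map_mul _ _ ha0 hb0, ha1, hb1]; rfl
          exact DensL.not_pos_of_zero v hab0 hab1 h2
        · exact hGc h2
      · apply Subtype.ext
        change aeval t (C (a * b) * G) * f =
          algebraMap K L (π : K) * aeval t (C (b * a') * G - C (a * b') * (A /ₘ (X - C cS)))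
        have hCm : ∀ (r : S₀) (Q : S₀[X]), aeval t (C r * Q) = algebraMap K L (r : K) * aeval t Q := by
          intro r Q
          rw [map_mul, hCt]
        rw [← hA', map_sub, hCm, hCm, hCm, hAt A]
        have e1 := congrArg (algebraMap K L) hbb
        have e2 := congrArg (algebraMap K L) haa
        rw [map_mul, map_mul] at e1 e2
        have e3 : algebraMap K L ((a * b : S₀) : K) = algebraMap K L (a : K) * algebraMap K L (b : K) :=
          map_mul _ _ _
        have e4 : algebraMap K L ((a * b' : S₀) : K) =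
          algebraMap K L (a : K) * algebraMap K L (b' : K) := map_mul _ _ _
        have e5 : algebraMap K L ((b * a' : S₀) : K) =
          algebraMap K L (b : K) * algebraMap K L (a' : K) := map_mul _ _ _
        rw [e3, e4, e5]
        linear_combination (algebraMap K L (a : K) * algebraMap K L (b : K) *
          aeval t (A /ₘ (X - C cS))) * hGt - (algebraMap K L (a : K) *
          aeval t (A /ₘ (X - C cS))) * e1 + (algebraMap K L (b : K) * aeval t G) * e2)
  -- the values on `K`
  have hposS₀ : ∀ f : S₀, w.Pos (algebraMap K L (f : K)) ↔ v.Pos (f : K) := by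
    intro f
    have hm : algebraMap K L (f : K) ∈ R₁ := by rw [← hCt]; exact hR₁ _
    have h1 := hw2 ⟨_, hm⟩
    rw [hN _ (C f) (hCt f), hCc] at h1
    exact h1
  have hregS₀ : ∀ f : S₀, w.Reg (algebraMap K L (f : K)) := by
    intro f
    exact hw1.1 _ (by rw [← hCt]; exact hR₁ _)
  have hz0 : ∀ f : S₀, (f : K) ≠ 0 → v.ord (f : K) = 0 → w.ord (algebraMap K L (f : K)) = 0 := by
    intro f hf0 hf1
    refine (ord_zero_of (hregS₀ f) ?_).2
    rw [hposS₀]
    exact DensL.not_pos_of_zero v hf0 hf1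
  have hz : ∀ f : K, f ≠ 0 → v.ord f = 0 → w.ord (algebraMap K L f) = 0 := by
    intro f hf0 hf1
    obtain ⟨a, b, hb0, hb1, hab⟩ := hmake f (Or.inr hf1.ge)
    have ha0 : (a : K) ≠ 0 := by rw [← hab]; exact mul_ne_zero hf0 hb0
    have ha1 : v.ord (a : K) = 0 := by rw [← hab, v.map_mul _ _ hf0 hb0, hf1, hb1]; rfl
    have h1 := hz0 a ha0 ha1
    have h2 := hz0 b hb0 hb1
    rw [← hab, map_mul, w.map_mul _ _ ((_root_.map_ne_zero _).2 hf0)
      ((_root_.map_ne_zero _).2 hb0), h2] at h1
    omega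
  have hord : ∀ f : K, f ≠ 0 → w.ord (algebraMap K L f) = v.ord f := by
    intro f hf0
    have hπn : (π : K) ^ (v.ord f) ≠ 0 := zpow_ne_zero _ hπ0
    have h1 : v.ord (f / (π : K) ^ (v.ord f)) = 0 := by
      rw [v.ord_div hf0 hπn, v.ord_zpow hπ0, hπ1]; ring
    have h2 := hz _ (div_ne_zero hf0 hπn) h1
    rw [map_div₀, map_zpow₀, w.ord_div ((_root_.map_ne_zero _).2 hf0) (zpow_ne_zero _ hπL),
      w.ord_zpow hπL] at h2
    have h3 : w.ord (algebraMap K L (π : K)) = 1 := hw3
    rw [h3] at h2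
    omega
  -- the element `s (t)`
  obtain ⟨sR, hsR⟩ := lift_of h.smem
  have hst : aeval t (sR.map inc) = aeval t h.s := by
    rw [← hevK, hinc, hsR]
  have hst' : aeval t sR = aeval t h.s := by rw [← htR, hst]
  obtain ⟨hsm, -⟩ := yx h y htS sR
  have hys : y ⟨aeval t sR, hsm⟩ ≠ 0 := by
    intro h0
    have h5 : (⟨aeval t sR, hsm⟩ : S) * ⟨(aeval t h.s)⁻¹, sinv_mem h⟩ = 1 := by
      apply Subtype.ext
      change aeval t sR * (aeval t h.s)⁻¹ = 1
      rw [hst', mul_inv_cancel₀ h.sne]
    have h6 := congrArg y h5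
    rw [map_mul, h0, zero_mul, map_one] at h6
    exact zero_ne_one h6
  have hws : w.ord (aeval t h.s) = 0 := by
    rw [← hst]
    refine (ord_zero_of (hw1.1 _ (hR₁ _)) ?_).2
    intro h1
    have h2 := (hw2 ⟨_, hR₁ (sR.map inc)⟩).1 h1
    rw [hN _ (sR.map inc) rfl, ← hyR sR hsm] at h2
    exact hys h2
  have hwsinv : w.Reg (aeval t h.s)⁻¹ := by
    right
    rw [w.ord_inv h.sne, hws]; simp
  have hR₁O : R₁ ≤ OA w := fun f hf => hw1.1 f hf
  have hXR : ∀ f ∈ X'.R, algebraMap K L f ∈ R₁ := by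
    intro f hf
    have := hR₁ (C ⟨f, hle hf⟩)
    rwa [hCt] at this
  have htR₁ : t ∈ R₁ := by
    have := hR₁ X
    rwa [aeval_X] at this
  refine ⟨w, ⟨⟨R₁ ⊔ Algebra.adjoin ℂ {(aeval t h.s)⁻¹}, ?_, ?_, ?_, ?_⟩, ?_⟩, hord⟩
  · refine hfg.sup ?_
    exact ⟨{(aeval t h.s)⁻¹}, by simp⟩
  · refine h.hS.le.trans (Algebra.adjoin_le ?_)
    rintro f (⟨g, hg, rfl⟩ | hf)
    · exact (le_sup_left : R₁ ≤ _) (hXR g hg)
    · rcases hf with rfl | hf
      · exact (le_sup_left : R₁ ≤ _) htR₁
      · rw [Set.mem_singleton_iff] at hf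
        rw [hf]
        exact (le_sup_right : Algebra.adjoin ℂ {(aeval t h.s)⁻¹} ≤ _)
          (Algebra.subset_adjoin rfl)
  · intro f hf
    have h1 : R₁ ⊔ Algebra.adjoin ℂ {(aeval t h.s)⁻¹} ≤ OA w := by
      refine sup_le hR₁O (Algebra.adjoin_le ?_)
      rintro g hg
      rw [Set.mem_singleton_iff] at hg
      rw [hg]
      exact hwsinv
    exact h1 hf
  · intro f hf
    obtain ⟨a, b, ha, hb, hb0, hb1, hab⟩ := hw1.2 f hf
    exact ⟨a, b, (le_sup_left : R₁ ≤ _) ha, (le_sup_left : R₁ ≤ _) hb, hb0, hb1, hab⟩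
  · -- the centre
    have hreg : S ≤ OA w := by
      rw [h.hS]
      refine Algebra.adjoin_le ?_
      rintro f (⟨g, hg, rfl⟩ | hf)
      · exact hR₁O (hXR g hg)
      · rcases hf with rfl | hf
        · exact hR₁O htR₁
        · rw [Set.mem_singleton_iff] at hf
          rw [hf]
          exact hwsinv
    have hkey : ∀ f (hf : f ∈ S), w.Pos (f - algebraMap ℂ L (y ⟨f, hf⟩)) := by
      have hgen : ∀ f (hf : f ∈ Algebra.adjoin ℂ
          ((algebraMap K L '' (X'.R : Set K)) ∪ {h.t, (aeval h.t h.s)⁻¹})),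
          ∀ hf' : f ∈ S, w.Pos (f - algebraMap ℂ L (y ⟨f, hf'⟩)) := by
        intro f hf
        induction hf using Algebra.adjoin_induction with
        | mem f hf =>
          intro hf'
          rcases hf with ⟨g, hg, rfl⟩ | hf
          · have h1 : y ⟨algebraMap K L g, hf'⟩ = h.im y ⟨g, hg⟩ := rfl
            rw [h1]
            have h2 : algebraMap K L g - algebraMap ℂ L (h.im y ⟨g, hg⟩) =
                algebraMap K L (((⟨g, hle hg⟩ - algebraMap ℂ S₀ (h.im y ⟨g, hg⟩) : S₀) : K)) := by
              change _ = algebraMap K L (g - algebraMap ℂ K _)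
              rw [map_sub, ← IsScalarTower.algebraMap_apply]
            rw [h2, hposS₀]
            have h3 := (hx (⟨g, hg⟩ - algebraMap ℂ X'.R (h.im y ⟨g, hg⟩))).2 (by
              rw [map_sub, AlgHom.commutes]
              simp)
            exact h3
          · rcases hf with rfl | hf
            · have h1 := hR₁ (X - C cS)
              have h2 : aeval t (X - C cS) = t - algebraMap ℂ L c := by
                rw [map_sub, aeval_X, hCt, hcS, hcK, ← IsScalarTower.algebraMap_apply]
              have h3 := (hw2 ⟨_, h1⟩).2 ((hN _ (X - C cS) rfl).2 (by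
                rw [map_sub, aeval_X, hCc, hcS, sub_self]
                exact Or.inl rfl))
              have h4 : w.Pos (aeval t (X - C cS)) := h3
              rw [h2] at h4
              exact h4
            · rw [Set.mem_singleton_iff] at hf
              subst hf
              -- `s (t)`
              have hsS : aeval t h.s ∈ S := by rw [← hst']; exact hsm
              have h1 : w.Pos (aeval t h.s - algebraMap ℂ L (y ⟨aeval t h.s, hsS⟩)) := by
                have h2 : aeval t ((sR.map inc) - C (algebraMap ℂ S₀ (y ⟨aeval t h.s, hsS⟩))) =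
                    aeval t h.s - algebraMap ℂ L (y ⟨aeval t h.s, hsS⟩) := by
                  rw [map_sub, hst, hCt]
                  change _ - algebraMap K L (algebraMap ℂ K _) = _
                  rw [← IsScalarTower.algebraMap_apply]
                have h3 := hR₁ ((sR.map inc) - C (algebraMap ℂ S₀ (y ⟨aeval t h.s, hsS⟩)))
                have h4 := (hw2 ⟨_, h3⟩).2 ((hN _ _ rfl).2 (by
                  have h5 : (sR.map inc) - C (algebraMap ℂ S₀ (y ⟨aeval t h.s, hsS⟩)) =
                    (sR - C (algebraMap ℂ X'.R (y ⟨aeval t h.s, hsS⟩))).map inc := by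
                    rw [Polynomial.map_sub, map_C]
                    rfl
                  have h6 : aeval t (sR - C (algebraMap ℂ X'.R (y ⟨aeval t h.s, hsS⟩))) =
                      aeval t h.s - algebraMap ℂ L (y ⟨aeval t h.s, hsS⟩) := by
                    rw [map_sub, hst', aeval_C]
                    congr 1
                    change algebraMap K L (algebraMap ℂ K _) = _
                    rw [← IsScalarTower.algebraMap_apply]
                  have h7 : aeval t (sR - C (algebraMap ℂ X'.R (y ⟨aeval t h.s, hsS⟩))) ∈ S := by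
                    rw [h6]
                    exact S.sub_mem hsS (S.algebraMap_mem _)
                  rw [h5, ← hyR _ h7]
                  have h8 : (⟨_, h7⟩ : S) = ⟨aeval t h.s, hsS⟩ -
                      algebraMap ℂ S (y ⟨aeval t h.s, hsS⟩) := Subtype.ext h6
                  rw [h8, map_sub, AlgHom.commutes]
                  simp))
                have h9 : w.Pos (aeval t ((sR.map inc) -
                  C (algebraMap ℂ S₀ (y ⟨aeval t h.s, hsS⟩)))) := h4
                rwa [h2] at h9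
              set σ := y ⟨aeval t h.s, hsS⟩ with hσ
              have hy1 : σ * y ⟨(aeval h.t h.s)⁻¹, hf'⟩ = 1 := by
                rw [hσ, ← map_mul]
                have : (⟨aeval t h.s, hsS⟩ : S) * ⟨(aeval h.t h.s)⁻¹, hf'⟩ = 1 :=
                  Subtype.ext (mul_inv_cancel₀ h.sne)
                rw [this, map_one]
              set τ := y ⟨(aeval h.t h.s)⁻¹, hf'⟩ with hτ
              have h2 : (aeval h.t h.s)⁻¹ - algebraMap ℂ L τ =
                  ((aeval h.t h.s)⁻¹ * (algebraMap ℂ L (-τ))) *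
                    (aeval t h.s - algebraMap ℂ L σ) := by
                have h3 : algebraMap ℂ L σ * algebraMap ℂ L τ = 1 := by
                  rw [← map_mul, hy1, map_one]
                have h4 : (aeval h.t h.s)⁻¹ * (aeval t h.s) = 1 := inv_mul_cancel₀ h.sne
                rw [map_neg]
                linear_combination (-(aeval h.t h.s)⁻¹) * h3 + (algebraMap ℂ L τ) * h4
              rw [h2]
              exact w.pos_mul_left (w.reg_mul hwsinv (w.reg_const _)) h1
        | algebraMap r =>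
          intro hf'
          have h1 : y ⟨algebraMap ℂ L r, hf'⟩ = r := y.commutes r
          rw [h1, sub_self]
          exact Or.inl rfl
        | add a b ha hb iha ihb =>
          intro hf'
          rw [← h.hS] at ha hb
          have h1 : y ⟨a + b, hf'⟩ = y ⟨a, ha⟩ + y ⟨b, hb⟩ := by
            rw [← map_add]; rfl
          have h2 : a + b - algebraMap ℂ L (y ⟨a + b, hf'⟩) =
              (a - algebraMap ℂ L (y ⟨a, ha⟩)) + (b - algebraMap ℂ L (y ⟨b, hb⟩)) := by
            rw [h1, map_add]; ring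
          rw [h2]
          exact w.pos_add (iha ha) (ihb hb)
        | mul a b ha hb iha ihb =>
          intro hf'
          rw [← h.hS] at ha hb
          have h1 : y ⟨a * b, hf'⟩ = y ⟨a, ha⟩ * y ⟨b, hb⟩ := by
            rw [← map_mul]; rfl
          have h2 : a * b - algebraMap ℂ L (y ⟨a * b, hf'⟩) =
              b * (a - algebraMap ℂ L (y ⟨a, ha⟩)) +
                algebraMap ℂ L (y ⟨a, ha⟩) * (b - algebraMap ℂ L (y ⟨b, hb⟩)) := by
            rw [h1, map_mul]; ring
          rw [h2]
          exact w.pos_add (w.pos_mul_left (hreg hb) (iha ha))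
            (w.pos_mul_left (w.reg_const _) (ihb hb))
      intro f hf
      have hf' := hf
      rw [h.hS] at hf'
      exact hgen f hf' hf
    intro f
    have h1 := hkey f f.2
    have h1' : w.Pos ((f : L) - algebraMap ℂ L (y f)) := h1
    constructor
    · intro h2
      by_contra h3
      have h4 : w.Pos (algebraMap ℂ L (y f)) := by
        have h5 : algebraMap ℂ L (y f) = (f : L) + -((f : L) - algebraMap ℂ L (y f)) := by ring
        rw [h5]
        exact w.pos_add h2 (DensL.pos_neg w h1')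
      exact DensL.not_pos_of_zero w ((_root_.map_ne_zero _).2 h3) (w.const _ h3) h4
    · intro h2
      rw [h2, map_zero, sub_zero] at h1'
      exact h1'

end Pool.Agent.Helper58K9.ET
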